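import Pool.Agent.Helper15.RK.GoalsF

/-! # BNDK: bounds on compact sets

The determinant of `H + s θ` is a polynomial in `s` of degree at most the rank of `θ`; its coefficients
are the determinants of the matrices with some rows of `H` and some rows of `θ`. -/

open Complex Metric Set Filter Topology MeasureTheory
open scoped ContDiff ComplexConjugate ComplexOrder Manifold Matrix

namespace Pool.Agent.Helper93.RK

open Pool.Agent.Helper95.Lin Pool.Agent.Helper16.Abund Pool.Agent.Helper92.Orb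
  Pool.Agent.Helper10.SP Pool.Agent.Helper95.RK Pool.Agent.Helper15.RK

variable {n : ℕ}

theorem hermi_eq_dot (A : Matrix (Fin n) (Fin n) ℂ) (x : Cn n) :
    hermi A x x = star x ⬝ᵥ Aᵀ.mulVec x := by
  simp only [hermi, dotProduct, Matrix.mulVec, Matrix.transpose_apply, Finset.mul_sum,
    Pi.star_apply]
  rw [Finset.sum_comm]
  refine Finset.sum_congr rfl fun j _ => Finset.sum_congr rfl fun i _ => ?_
  change A i j * x i * conj (x j) = conj (x j) * (A i j * x i)
  ring

theorem hermi_pd {A : Matrix (Fin n) (Fin n) ℂ} (hA : A.PosDef) {x : Cn n}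
    (hx : x ≠ 0) : 0 < (hermi A x x).re := by
  have h1 := hA.transpose.dotProduct_mulVec_pos hx
  rw [hermi_eq_dot]
  exact (Complex.lt_def.1 h1).1

theorem hermi_rsmul (A : Matrix (Fin n) (Fin n) ℂ) (t : ℝ) (x : Cn n) :
    hermi A ((t : ℂ) • x) ((t : ℂ) • x) = ((t ^ 2 : ℝ) : ℂ) * hermi A x x := by
  simp only [hermi, Finset.mul_sum, Pi.smul_apply, smul_eq_mul, map_mul, Complex.conj_ofReal]
  refine Finset.sum_congr rfl fun i _ => Finset.sum_congr rfl fun j _ => ?_
  push_cast
  ring

theorem hermi_add_mat (A B : Matrix (Fin n) (Fin n) ℂ) (s : ℂ) (x y : Cn n) :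
    hermi (A + s • B) x y = hermi A x y + s * hermi B x y := by
  simp only [hermi, Finset.mul_sum, ← Finset.sum_add_distrib, Matrix.add_apply, Matrix.smul_apply,
    smul_eq_mul]
  refine Finset.sum_congr rfl fun i _ => Finset.sum_congr rfl fun j _ => ?_
  ring

/-- a lower bound on compact sets -/
theorem low_bound {T : Set (Cn n)} {H : Cn n → Matrix (Fin n) (Fin n) ℂ}
    (hH : ∀ x ∈ T, (H x).PosDef) (hc : ∀ i j, ContinuousOn (fun x => H x i j) T)
    {C : Set (Cn n)} (hC : IsCompact C) (hCT : C ⊆ T) :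
    ∃ c : ℝ, 0 < c ∧ ∀ x ∈ C, ∀ u : Cn n, c * ‖u‖ ^ 2 ≤ (hermi (H x) u u).re := by
  have hS : IsCompact (C ×ˢ sphere (0 : Cn n) 1) := hC.prod (isCompact_sphere _ _)
  have hf : ContinuousOn (fun p : Cn n × Cn n => (hermi (H p.1) p.2 p.2).re)
      (C ×ˢ sphere (0 : Cn n) 1) := by
    have hv : ∀ i, Continuous fun p : Cn n × Cn n => p.2 i := by
      intro i
      exact (continuous_apply i).comp continuous_snd
    have h3 : ∀ i j, ContinuousOn (fun p : Cn n × Cn n => H p.1 i j)
        (C ×ˢ sphere (0 : Cn n) 1) := fun i j =>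
      ((hc i j).mono hCT).comp continuousOn_fst (fun p hp => hp.1)
    have h4 : ∀ i j, ContinuousOn (fun p : Cn n × Cn n =>
        H p.1 i j * p.2 i * conj (p.2 j)) (C ×ˢ sphere (0 : Cn n) 1) := by
      intro i j
      have h5 : Continuous fun p : Cn n × Cn n => conj (p.2 j) :=
        Complex.continuous_conj.comp (hv j)
      exact ((h3 i j).mul (hv i).continuousOn).mul h5.continuousOn
    have h6 : ContinuousOn (fun p : Cn n × Cn n => hermi (H p.1) p.2 p.2)
        (C ×ˢ sphere (0 : Cn n) 1) := by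
      have h7 : ∀ i, ContinuousOn (fun p : Cn n × Cn n =>
        ∑ j, H p.1 i j * p.2 i * conj (p.2 j))
        (C ×ˢ sphere (0 : Cn n) 1) := fun i => continuousOn_finsetSum _ fun j _ => h4 i j
      exact continuousOn_finsetSum _ fun i _ => h7 i
    exact Complex.continuous_re.comp_continuousOn h6
  obtain ⟨c, hc0, hcb⟩ : ∃ c : ℝ, 0 < c ∧ ∀ x ∈ C,
      ∀ u ∈ sphere (0 : Cn n) 1, c ≤ (hermi (H x) u u).re := by
    rcases (C ×ˢ sphere (0 : Cn n) 1).eq_empty_or_nonempty with h | h
    · refine ⟨1, one_pos, fun x hx u hu => ?_⟩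
      exact absurd (mk_mem_prod hx hu) (by rw [h]; exact notMem_empty _)
    · obtain ⟨p, hp1, hp2⟩ := hS.exists_isMinOn h hf
      have hne : p.2 ≠ 0 := by
        intro h0
        have h2 : ‖p.2‖ = 1 := by simpa using hp1.2
        rw [h0, norm_zero] at h2
        exact zero_ne_one h2
      refine ⟨_, hermi_pd (hH _ (hCT hp1.1)) hne, fun x hx u hu => ?_⟩
      exact (isMinOn_iff.1 hp2) (x, u) (mk_mem_prod hx hu)
  refine ⟨c, hc0, fun x hx u => ?_⟩
  rcases eq_or_ne u 0 with rfl | hu
  · simp [hermi]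
  · have hu' : 0 < ‖u‖ := norm_pos_iff.2 hu
    set u1 : Cn n := ((‖u‖⁻¹ : ℝ) : ℂ) • u with hu1
    have h1 : ‖u1‖ = 1 := by
      rw [hu1, norm_smul, Complex.norm_real, norm_inv, norm_norm, inv_mul_cancel₀ hu'.ne']
    have h2 : u = ((‖u‖ : ℝ) : ℂ) • u1 := by
      rw [hu1, smul_smul, ← Complex.ofReal_mul, mul_inv_cancel₀ hu'.ne', Complex.ofReal_one,
        one_smul]
    have h6 : (hermi (H x) u u).re = ‖u‖ ^ 2 * (hermi (H x) u1 u1).re := by
      conv_lhs => rw [h2, hermi_rsmul]
      rw [Complex.re_ofReal_mul]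
    have h4 := hcb x hx u1 (by simpa using h1)
    rw [h6]
    nlinarith [sq_nonneg ‖u‖]

/-- the entries of the inverse of a positive matrix -/
theorem inv_bound {A : Matrix (Fin n) (Fin n) ℂ} {c : ℝ} (hc : 0 < c)
    (h : ∀ u : Cn n, c * ‖u‖ ^ 2 ≤ (hermi A u u).re) (j l : Fin n) : ‖A⁻¹ j l‖ ≤ 1 / c := by
  by_cases hA : IsUnit A.det
  · have h1 : A * A⁻¹ = 1 := Matrix.mul_nonsing_inv A hA
    set v : Cn n := fun j => conj (A⁻¹ j l) with hv
    have h2 : hermi A v v = v l := by
      have h3 : hermi A v v = ∑ i, v i * (A * A⁻¹) i l := by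
        simp only [hermi, Matrix.mul_apply, Finset.mul_sum, hv, Complex.conj_conj]
        refine Finset.sum_congr rfl fun i _ => Finset.sum_congr rfl fun j _ => ?_
        ring
      rw [h3, h1]
      simp [Matrix.one_apply]
    have h3 := h v
    rw [h2] at h3
    have h4 : (v l).re ≤ ‖v‖ := (Complex.re_le_norm _).trans (norm_le_pi_norm v l)
    have h5 : ‖v‖ ≤ 1 / c := by
      rcases eq_or_lt_of_le (norm_nonneg v) with h0 | h0
      · rw [← h0]; positivity
      · rw [le_div_iff₀ hc]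
        nlinarith
    have h6 : ‖A⁻¹ j l‖ = ‖v j‖ := by
      simp only [hv, Complex.norm_conj]
    rw [h6]
    exact (norm_le_pi_norm v j).trans h5
  · rw [Matrix.nonsing_inv_apply_not_isUnit _ hA]
    simp only [Matrix.zero_apply, norm_zero]
    positivity

/-- expansion of the determinant of a pencil -/
theorem det_pencil (H θ : Matrix (Fin n) (Fin n) ℂ) (s : ℂ) :
    (H + s • θ).det = ∑ S : Finset (Fin n), s ^ Sᶜ.card *
      Matrix.det (S.piecewise H θ : Matrix (Fin n) (Fin n) ℂ) := by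
  classical
  have h1 := (Matrix.detRowAlternating (n := Fin n) (R := ℂ)).toMultilinearMap.map_add_univ
    H (s • θ)
  have h0 : (H + s • θ).det = (Matrix.detRowAlternating (n := Fin n) (R := ℂ)).toMultilinearMap
    (H + s • θ) := rfl
  rw [h0]
  refine h1.trans (Finset.sum_congr rfl fun S _ => ?_)
  have h2 := (Matrix.detRowAlternating (n := Fin n) (R := ℂ)).toMultilinearMap.map_piecewise_smul
    (fun _ => s) (S.piecewise H θ) Sᶜ
  have h3 : (Sᶜ.piecewise (fun i => s • S.piecewise H θ i) (S.piecewise H θ) :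
      Fin n → Fin n → ℂ) = S.piecewise H (s • θ) := by
    funext i
    by_cases hi : i ∈ S
    · rw [Finset.piecewise_eq_of_notMem _ _ _ (by simpa using hi),
        Finset.piecewise_eq_of_mem _ _ _ hi, Finset.piecewise_eq_of_mem _ _ _ hi]
    · rw [Finset.piecewise_eq_of_mem _ _ _ (by simpa using hi),
        Finset.piecewise_eq_of_notMem _ _ _ hi, Finset.piecewise_eq_of_notMem _ _ _ hi]
      rfl
  rw [h3, Finset.prod_const, smul_eq_mul] at h2
  exact h2

/-- too many rows of `θ` are dependent -/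
theorem det_zero {b : ℕ} (H θ : Matrix (Fin n) (Fin n) ℂ)
    (hr : Module.finrank ℂ (LinearMap.range θᵀ.mulVecLin) ≤ b) (S : Finset (Fin n))
    (hS : b < Sᶜ.card) : Matrix.det (S.piecewise H θ : Matrix (Fin n) (Fin n) ℂ) = 0 := by
  classical
  refine AlternatingMap.map_linearDependent (Matrix.detRowAlternating (n := Fin n) (R := ℂ)) _ ?_
  intro hli
  have h1 : LinearIndependent ℂ (fun i : {i // i ∈ Sᶜ} => θ i) := by
    have h2 := hli.comp (fun i : {i // i ∈ Sᶜ} => (i : Fin n)) Subtype.val_injective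
    have h3 : (S.piecewise H θ : Fin n → Fin n → ℂ) ∘ (fun i : {i // i ∈ Sᶜ} => (i : Fin n)) =
        fun i : {i // i ∈ Sᶜ} => θ i := by
      funext i
      exact Finset.piecewise_eq_of_notMem _ _ _ (Finset.mem_compl.1 i.2)
    rw [h3] at h2
    exact h2
  have h4 := finrank_span_eq_card h1
  have h5 : Submodule.span ℂ (range fun i : {i // i ∈ Sᶜ} => θ i) ≤
      LinearMap.range θᵀ.mulVecLin := by
    rw [Submodule.span_le]
    rintro _ ⟨i, rfl⟩
    refine ⟨Pi.single (i : Fin n) 1, ?_⟩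
    rw [Matrix.mulVecLin_apply, Matrix.mulVec_single_one]
    rfl
  have h6 := Submodule.finrank_mono h5
  rw [h4, Fintype.card_coe] at h6
  omega

theorem bndk (hLMF : S_LMF) : S_BNDK := by
  classical
  intro b k T G _ R H Φ g h C hCT hC
  have hTo : IsOpen T := h.ket.et.isOpen
  obtain ⟨hsm, hherm, hlev, -⟩ := hLMF T hTo Φ h.smP
  -- the semidefinite form
  have hpsd : ∀ x ∈ T, (LM Φ x)ᵀ.PosSemidef := by
    intro x hx
    refine Matrix.PosSemidef.of_dotProduct_mulVec_nonneg (hherm x hx).transpose fun e => ?_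
    rw [← hermi_eq_dot, ← hlev x hx e]
    exact_mod_cast (h.rank x hx).1 e
  have hrank : ∀ x ∈ T, Module.finrank ℂ (LinearMap.range (LM Φ x)ᵀ.mulVecLin) ≤ b := by
    intro x hx
    obtain ⟨S0, hS0, hS1⟩ := (h.rank x hx).2
    have h1 : S0 ≤ LinearMap.ker (LM Φ x)ᵀ.mulVecLin := by
      intro e he
      rw [LinearMap.mem_ker, Matrix.mulVecLin_apply]
      refine ((hpsd x hx).dotProduct_mulVec_zero_iff e).1 ?_
      rw [← hermi_eq_dot, ← hlev x hx e, (hS1 e).2 he]
      rfl
    have h2 : Module.finrank ℂ S0 ≤ Module.finrank ℂ (LinearMap.ker (LM Φ x)ᵀ.mulVecLin) :=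
      Submodule.finrank_mono h1
    have h3 : Module.finrank ℂ (LinearMap.range (LM Φ x)ᵀ.mulVecLin) +
        Module.finrank ℂ (LinearMap.ker (LM Φ x)ᵀ.mulVecLin) = b + k := by
      refine (LinearMap.finrank_range_add_finrank_ker (LM Φ x)ᵀ.mulVecLin).trans ?_
      rw [Module.finrank_fintype_fun_eq_card, Fintype.card_fin]
    omega
  -- the lower bound
  obtain ⟨c, hc0, hc⟩ := low_bound h.ket.posDef (fun i j => (h.ket.smooth i j).continuousOn) hC hCT
  -- the coefficients
  have hcoef : ∀ S : Finset (Fin (b + k)), ∃ B : ℝ, ∀ x ∈ C,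
      ‖Matrix.det (S.piecewise (H x) (LM Φ x) : Matrix (Fin (b + k)) (Fin (b + k)) ℂ)‖ ≤ B := by
    intro S
    refine hC.exists_bound_of_continuousOn ?_
    have h1 : ContinuousOn (fun x => (S.piecewise (H x) (LM Φ x) :
        Matrix (Fin (b + k)) (Fin (b + k)) ℂ)) C := by
      refine continuousOn_pi.2 fun i => continuousOn_pi.2 fun j => ?_
      by_cases hi : i ∈ S
      · simp only [Finset.piecewise_eq_of_mem _ _ _ hi]
        exact (h.ket.smooth i j).continuousOn.mono hCT
      · simp only [Finset.piecewise_eq_of_notMem _ _ _ hi]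
        exact (hsm i j).continuousOn.mono hCT
    exact (continuous_id.matrix_det).comp_continuousOn h1
  choose B hB using hcoef
  refine ⟨max (∑ S, |B S|) (1 / c), fun x hx s hs => ⟨?_, fun j l => ?_⟩⟩
  · have hs0 : (0 : ℝ) ≤ s := by linarith
    rw [det_pencil]
    refine (norm_sum_le _ _).trans ?_
    have h1 : ∀ S : Finset (Fin (b + k)), ‖(s : ℂ) ^ Sᶜ.card *
        Matrix.det (S.piecewise (H x) (LM Φ x) : Matrix (Fin (b + k)) (Fin (b + k)) ℂ)‖ ≤
        |B S| * s ^ b := by
      intro S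
      by_cases hS : b < Sᶜ.card
      · rw [det_zero _ _ (hrank x (hCT hx)) S hS, mul_zero, norm_zero]
        positivity
      · rw [norm_mul, norm_pow, Complex.norm_real, Real.norm_eq_abs, abs_of_nonneg hs0, mul_comm]
        refine mul_le_mul ((hB S x hx).trans (le_abs_self _)) ?_ (by positivity) (abs_nonneg _)
        exact pow_le_pow_right₀ hs (by omega)
    refine (Finset.sum_le_sum fun S _ => h1 S).trans ?_
    rw [← Finset.sum_mul]
    exact mul_le_mul_of_nonneg_right (le_max_left _ _) (by positivity)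
  · refine (inv_bound hc0 (fun u => ?_) j l).trans (le_max_right _ _)
    rw [hermi_add_mat, Complex.add_re, Complex.re_ofReal_mul]
    have h2 : 0 ≤ (hermi (LM Φ x) u u).re := by
      rw [← hlev x (hCT hx) u, Complex.ofReal_re]
      exact (h.rank x (hCT hx)).1 u
    have h3 := hc x hx u
    nlinarith

end Pool.Agent.Helper93.RK
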