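import Pool.Agent.Helper36.RK.GoalsP
import Pool.Agent.Helper95.Lin.Basics

/-! # DIFP: calculus of a polarized family -/

open Complex Metric Set Filter Topology MeasureTheory Matrix
open scoped ContDiff ComplexConjugate ComplexOrder Manifold

namespace Pool.Agent.Helper93.RK

open Pool.Agent.Helper95.Lin Pool.Agent.Helper10.SP Pool.Agent.Helper95.RK
open Pool.Agent.Helper36.RK

/-- the determinant of a smooth family of matrices is smooth -/
theorem contDiffOn_det {b k : ℕ} {D : Set (Cn b)} {A : Cn b → Matrix (Fin k) (Fin k) ℂ}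
    (h : ∀ p q, ContDiffOn ℝ ∞ (fun z => A z p q) D) : ContDiffOn ℝ ∞ (fun z => (A z).det) D := by
  have e : (fun z => (A z).det) = fun z => ∑ σ : Equiv.Perm (Fin k),
      ((Equiv.Perm.sign σ : ℤ) : ℂ) * ∏ i, A z (σ i) i := by
    funext z
    exact Matrix.det_apply' _
  rw [e]
  refine ContDiffOn.sum fun σ _ => contDiffOn_const.mul ?_
  exact contDiffOn_prod fun i _ => h _ _

/-- the adjugate of a smooth family of matrices is smooth -/
theorem contDiffOn_adj {b k : ℕ} {D : Set (Cn b)} {A : Cn b → Matrix (Fin k) (Fin k) ℂ}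
    (h : ∀ p q, ContDiffOn ℝ ∞ (fun z => A z p q) D) (p q : Fin k) :
    ContDiffOn ℝ ∞ (fun z => (A z).adjugate p q) D := by
  have e : (fun z => (A z).adjugate p q) =
      fun z => ((A z).updateRow q (Pi.single p 1)).det := by
    funext z
    exact Matrix.adjugate_apply _ _ _
  rw [e]
  refine contDiffOn_det fun i j => ?_
  by_cases hi : i = q
  · subst hi
    simp only [Matrix.updateRow_self]
    exact contDiffOn_const
  · simp only [Matrix.updateRow_ne hi]
    exact h i j

/-- the inverse of a smooth family of invertible matrices is smooth -/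
theorem contDiffOn_inv {b k : ℕ} {D : Set (Cn b)} {A : Cn b → Matrix (Fin k) (Fin k) ℂ}
    (h : ∀ p q, ContDiffOn ℝ ∞ (fun z => A z p q) D) (h0 : ∀ z ∈ D, (A z).det ≠ 0)
    (p q : Fin k) : ContDiffOn ℝ ∞ (fun z => (A z)⁻¹ p q) D := by
  have e : ∀ z ∈ D, (A z)⁻¹ p q = ((A z).det)⁻¹ * (A z).adjugate p q := by
    intro z _
    rw [Matrix.inv_def, Ring.inverse_eq_inv']
    rfl
  exact (((contDiffOn_det h).inv h0).mul (contDiffOn_adj h p q)).congr e

theorem hiM_apply {b k : ℕ} (lam : Fin (2 * k) → Cn b → Cn k)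
    (Om : Matrix (Fin (2 * k)) (Fin (2 * k)) ℝ) (z : Cn b) (p q : Fin k) :
    Hi lam Om z p q = (1 / (2 * I) : ℂ) * ∑ j, (∑ i, conj (lam i z p) * (Om i j : ℂ)) *
      lam j z q := rfl

theorem sV_apply {b k : ℕ} (lam : Fin (2 * k) → Cn b → Cn k)
    (Om : Matrix (Fin (2 * k)) (Fin (2 * k)) ℝ) (z v : Cn b) (p q : Fin k) :
    sV lam Om z v p q = ∑ j, (∑ i, fderiv ℂ (lam i) z v p * (Om i j : ℂ)) * lam j z q := rfl

theorem difp : S_DIFP := by
  intro b k D lam Om h
  have hdiff : ∀ j, ∀ z ∈ D, DifferentiableAt ℂ (lam j) z := fun j z hz =>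
    (h.holo j).differentiableAt (h.isOpen.mem_nhds hz)
  have hsm : ∀ j p, ContDiffOn ℝ ∞ (fun z => lam j z p) D := fun j p =>
    (contDiffOn_pi.1 (holo_contDiffOn_real h.isOpen (h.holo j))) p
  have hsmc : ∀ j p, ContDiffOn ℝ ∞ (fun z => conj (lam j z p)) D := fun j p =>
    Complex.conjCLE.contDiff.comp_contDiffOn (hsm j p)
  have hHi : ∀ p q, ContDiffOn ℝ ∞ (fun z => Hi lam Om z p q) D := by
    intro p q
    simp only [hiM_apply]
    refine contDiffOn_const.mul (ContDiffOn.sum fun j _ => ?_)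
    exact (ContDiffOn.sum fun i _ => (hsmc i p).mul contDiffOn_const).mul (hsm j q)
  have hdet : ∀ z ∈ D, 0 < (Hi lam Om z).det.re ∧ (Hi lam Om z).det.im = 0 := by
    intro z hz
    have h1 := (h.pol z hz).pos.det_pos
    rw [Complex.lt_def] at h1
    exact ⟨h1.1, h1.2.symm⟩
  have hdet0 : ∀ z ∈ D, (Hi lam Om z).det ≠ 0 := by
    intro z hz h0
    have h1 := (hdet z hz).1
    rw [h0] at h1
    simp at h1
  refine ⟨?_, ?_, ?_, fun p q => ⟨hHi p q, contDiffOn_inv hHi hdet0 p q⟩, hdet, ?_⟩
  · -- symmetry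
    intro z hz v
    have hc : ∀ j p, HasFDerivAt (fun y => lam j y p)
        ((ContinuousLinearMap.proj p : (Fin k → ℂ) →L[ℂ] ℂ).comp (fderiv ℂ (lam j) z)) z := by
      intro j p
      exact (ContinuousLinearMap.proj (R := ℂ) (φ := fun _ : Fin k => ℂ) p).hasFDerivAt.comp z
        (hdiff j z hz).hasFDerivAt
    have key : ∀ p q, ∑ j, ∑ i, (fderiv ℂ (lam i) z v p * (Om i j : ℂ) * lam j z q +
        lam i z p * (Om i j : ℂ) * fderiv ℂ (lam j) z v q) = 0 := by
      intro p q
      have h1 : HasFDerivAt (fun y => ∑ j, ∑ i, lam i y p * (Om i j : ℂ) * lam j y q)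
          (∑ j, ∑ i, ((lam i z p * (Om i j : ℂ)) •
            ((ContinuousLinearMap.proj q : (Fin k → ℂ) →L[ℂ] ℂ).comp (fderiv ℂ (lam j) z)) +
            (lam j z q) • ((Om i j : ℂ) •
            ((ContinuousLinearMap.proj p : (Fin k → ℂ) →L[ℂ] ℂ).comp (fderiv ℂ (lam i) z))))) z := by
        refine HasFDerivAt.fun_sum fun j _ => HasFDerivAt.fun_sum fun i _ => ?_
        exact ((hc i p).mul_const _).mul (hc j q)
      have h2 : (fun y => ∑ j, ∑ i, lam i y p * (Om i j : ℂ) * lam j y q) =ᶠ[𝓝 z] fun _ => 0 := by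
        filter_upwards [h.isOpen.mem_nhds hz] with y hy
        have h3 := congrFun (congrFun (h.pol y hy).iso p) q
        have h4 : (Lm lam y * toC Om * (Lm lam y).transpose) p q =
            ∑ j, (∑ i, lam i y p * (Om i j : ℂ)) * lam j y q := rfl
        rw [h4] at h3
        simp only [Finset.sum_mul] at h3
        exact h3
      have h3 : HasFDerivAt (fun y => ∑ j, ∑ i, lam i y p * (Om i j : ℂ) * lam j y q)
          (0 : Cn b →L[ℂ] ℂ) z := (hasFDerivAt_const (0 : ℂ) z).congr_of_eventuallyEq h2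
      have h4 := congrArg (fun L : Cn b →L[ℂ] ℂ => L v) (h1.unique h3)
      simp only [_root_.sum_apply, _root_.add_apply,
        _root_.smul_apply, ContinuousLinearMap.comp_apply,
        ContinuousLinearMap.proj_apply, smul_eq_mul, _root_.zero_apply] at h4
      rw [← h4]
      refine Finset.sum_congr rfl fun j _ => Finset.sum_congr rfl fun i _ => ?_
      ring
    ext p q
    rw [Matrix.transpose_apply, sV_apply, sV_apply]
    have h1 := key p q
    simp only [Finset.sum_add_distrib] at h1
    have h2 : ∑ j, (∑ i, fderiv ℂ (lam i) z v q * (Om i j : ℂ)) * lam j z p =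
        - ∑ j, ∑ i, lam i z p * (Om i j : ℂ) * fderiv ℂ (lam j) z v q := by
      simp only [Finset.sum_mul]
      rw [Finset.sum_comm, ← Finset.sum_neg_distrib]
      refine Finset.sum_congr rfl fun j _ => ?_
      rw [← Finset.sum_neg_distrib]
      refine Finset.sum_congr rfl fun i _ => ?_
      have h3 : Om j i = - Om i j := congrFun (congrFun (h.pol z hz).alt i) j
      rw [h3]
      push_cast
      ring
    rw [h2]
    simp only [Finset.sum_mul]
    linear_combination -h1
  · -- linearity
    intro z x y u v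
    have h1 : dL lam z (x • u + y • v) = x • dL lam z u + y • dL lam z v := by
      ext p j
      simp only [dL, Matrix.of_apply, map_add, map_smul, Pi.add_apply, Pi.smul_apply,
        Matrix.add_apply, Matrix.smul_apply]
    unfold sV
    rw [h1, Matrix.add_mul, Matrix.add_mul, Matrix.smul_mul, Matrix.smul_mul, Matrix.smul_mul,
      Matrix.smul_mul]
  · -- holomorphy
    intro V hV p q
    simp only [sV_apply]
    have hl : ∀ j p, DifferentiableOn ℂ (fun z => lam j z p) D := fun j p =>
      (differentiableOn_pi.1 (h.holo j)) p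
    have hf : ∀ i p, DifferentiableOn ℂ (fun z => fderiv ℂ (lam i) z (V z) p) D := by
      intro i p
      exact (differentiableOn_pi.1 ((holo_fderiv h.isOpen (h.holo i)).clm_apply hV)) p
    refine DifferentiableOn.fun_sum fun j _ => ?_
    exact (DifferentiableOn.fun_sum fun i _ => (hf i p).mul (differentiableOn_const _)).mul (hl j q)
  · -- the logarithm
    refine ContDiffOn.log ?_ fun z hz => (hdet z hz).1.ne'
    exact Complex.reCLM.contDiff.comp_contDiffOn (contDiffOn_det hHi)

end Pool.Agent.Helper93.RK
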