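import Pool.Agent.Helper36.RK.GoalsG
import Pool.Agent.Helper95.RK.Basics

/-! # Packet RK-TRLG: the averages are translation invariant in the limit -/

open Complex Metric Set Filter Topology MeasureTheory Matrix
open scoped ContDiff ComplexConjugate ComplexOrder Manifold

namespace Pool.Agent.Helper93.RK

open Pool.Agent.Helper95.Lin Pool.Agent.Helper16.Abund Pool.Agent.Helper92.Orb Pool.Agent.Helper10.SP
  Pool.Agent.Helper95.RK Pool.Agent.Helper36.RK

/-- `Lx lam z` as a real linear map. -/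
noncomputable def LxL {b k : ℕ} (lam : Fin (2 * k) → Cn b → Cn k) (z : Cn b) :
    (Fin (2 * k) → ℝ) →ₗ[ℝ] Cn k where
  toFun := Lx lam z
  map_add' x y := by
    simp only [Lx, Pi.add_apply, ofReal_add, add_smul, Finset.sum_add_distrib]
  map_smul' r x := by
    simp only [Lx, Pi.smul_apply, smul_eq_mul, ofReal_mul, mul_smul, RingHom.id_apply,
      Finset.smul_sum, Complex.coe_smul]

theorem LxL_apply {b k : ℕ} (lam : Fin (2 * k) → Cn b → Cn k) (z : Cn b)
    (x : Fin (2 * k) → ℝ) : LxL lam z x = Lx lam z x := rfl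

theorem finrank_Cn (k : ℕ) : Module.finrank ℝ (Cn k) = 2 * k := by
  have h : Module.finrank ℝ (Fin k → ℂ) = 2 * k := by
    rw [Module.finrank_pi_fintype]
    simp [Complex.finrank_real_complex]
    ring
  exact h

theorem Lx_surj {b k N : ℕ} {c : Fin N → Cn b} {P : Set (Cn b) → TriK b k → Prop}
    {lam : Fin (2 * k) → Cn b → Cn k} (hPer : PerK c P lam) {z : Cn b} (hz : z ∈ Bd c 3)
    (w : Cn k) : ∃ y, Lx lam z y = w := by
  obtain ⟨B, hB, hb⟩ := hPer.bdd
  have hinj : Function.Injective (LxL lam z) := by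
    rw [← LinearMap.ker_eq_bot, LinearMap.ker_eq_bot']
    intro x hx
    have h1 := (hb z hz x).2
    have h2 : ‖∑ j, (x j : ℂ) • lam j z‖ = 0 := by
      rw [norm_eq_zero]
      exact hx
    rw [h2, mul_zero] at h1
    exact norm_eq_zero.1 (le_antisymm h1 (norm_nonneg x))
  have h0 : Module.finrank ℝ (Fin (2 * k) → ℝ) = Module.finrank ℝ (Cn k) := by
    rw [finrank_Cn, Module.finrank_fin_fun]
  have hsur := (LinearMap.injective_iff_surjective_of_finrank_eq_finrank h0).1 hinj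
  exact hsur w

theorem Lx_mulVec {b k : ℕ} {lam : Fin (2 * k) → Cn b → Cn k} {z z₁ : Cn b}
    {A : Matrix (Fin k) (Fin k) ℂ} {Q : Matrix (Fin (2 * k)) (Fin (2 * k)) ℝ}
    (h : ∀ j, A *ᵥ lam j z = ∑ l, ((Q l j : ℝ) : ℂ) • lam l z₁) (x : Fin (2 * k) → ℝ) :
    Lx lam z₁ (Q *ᵥ x) = A *ᵥ Lx lam z x := by
  unfold Lx
  rw [Matrix.mulVec_sum]
  simp only [Matrix.mulVec_smul, h, Finset.smul_sum]
  rw [Finset.sum_comm]
  refine Finset.sum_congr rfl fun l _ => ?_
  rw [Matrix.mulVec, dotProduct, ofReal_sum, Finset.sum_smul]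
  refine Finset.sum_congr rfl fun j _ => ?_
  rw [ofReal_mul, smul_smul, mul_comm]

theorem Lx_diff_le {b k : ℕ} {lam : Fin (2 * k) → Cn b → Cn k} {z z₁ : Cn b} {η : ℝ}
    (h : ∀ j, ‖lam j z - lam j z₁‖ ≤ η) (x : Fin (2 * k) → ℝ) :
    ‖Lx lam z x - Lx lam z₁ x‖ ≤ ((2 * k : ℕ) : ℝ) * η * ‖x‖ := by
  unfold Lx
  rw [← Finset.sum_sub_distrib]
  calc ‖∑ j, ((x j : ℂ) • lam j z - (x j : ℂ) • lam j z₁)‖
      ≤ ∑ j, ‖((x j : ℂ) • lam j z - (x j : ℂ) • lam j z₁)‖ := norm_sum_le _ _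
    _ ≤ ∑ _j : Fin (2 * k), ‖x‖ * η := by
        refine Finset.sum_le_sum fun j _ => ?_
        rw [← smul_sub, norm_smul, Complex.norm_real]
        exact mul_le_mul (norm_le_pi_norm x j) (h j) (norm_nonneg _) (norm_nonneg _)
    _ = ((2 * k : ℕ) : ℝ) * η * ‖x‖ := by
        rw [Finset.sum_const, Finset.card_univ, Fintype.card_fin, nsmul_eq_mul]
        ring

/-- The bound of `fL`. -/
theorem fL_le {b k N : ℕ} {c : Fin N → Cn b} {P : Set (Cn b) → TriK b k → Prop}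
    {lam : Fin (2 * k) → Cn b → Cn k} (hPer : PerK c P lam)
    {H : Cn (b + k) → Matrix (Fin (b + k)) (Fin (b + k)) ℂ} {K : ℝ} (hK : 0 < K)
    (hb : ∀ z ∈ Bd c 2, ∀ w u v : Cn k,
      ‖hermi (H (ptK z w)) (ptK 0 u) (ptK 0 v)‖ ≤ K * ‖u‖ * ‖v‖) :
    ∃ K2 : ℝ, 0 < K2 ∧ ∀ z ∈ Bd c 2, ∀ (x : Fin (2 * k) → ℝ) j l, |fL H lam z x j l| ≤ K2 := by
  obtain ⟨B, hB, hB'⟩ := hPer.bdd
  refine ⟨K * B * B, by positivity, ?_⟩
  intro z hz x j l
  have hz3 : z ∈ Bd c 3 := by
    obtain ⟨i, hi⟩ := mem_iUnion.1 hz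
    exact mem_iUnion.2 ⟨i, ball_subset_ball (by norm_num) hi⟩
  have hl : ∀ j, ‖lam j z‖ ≤ B := by
    intro j
    have h1 := (hB' z hz3 (Pi.single j 1)).1
    have h2 : ∑ j', (((Pi.single j 1 : Fin (2 * k) → ℝ) j' : ℝ) : ℂ) • lam j' z = lam j z := by
      rw [Finset.sum_eq_single j]
      · simp
      · intro j' _ hj'
        simp [hj']
      · intro h
        exact absurd (Finset.mem_univ _) h
    rw [h2, Pi.norm_single, norm_one, mul_one] at h1
    exact h1
  unfold fL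
  refine (Complex.abs_im_le_norm _).trans ((hb z hz _ _ _).trans ?_)
  have h1 := hl j
  have h2 := hl l
  have h3 := norm_nonneg (lam j z)
  have h4 := norm_nonneg (lam l z)
  calc K * ‖lam j z‖ * ‖lam l z‖ ≤ K * B * ‖lam l z‖ := by gcongr
    _ ≤ K * B * B := by gcongr

theorem fL_cont (hSMG : S_SMG) {b k N : ℕ} {c : Fin N → Cn b} {R : ℝ}
    {P : Set (Cn b) → TriK b k → Prop}
    {Φ : Cn b → ℝ} {Hf : Cn b → Matrix (Fin k) (Fin k) ℂ} {C : ℝ}
    {H : Cn (b + k) → Matrix (Fin (b + k)) (Fin (b + k)) ℂ} (hA : AFolK c R P Φ Hf C)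
    (hK : KahP c R P H) {lam : Fin (2 * k) → Cn b → Cn k} (hPer : PerK c P lam)
    {z : Cn b} (hz : z ∈ Bd c 3) (j l : Fin (2 * k)) :
    Continuous fun x => fL H lam z x j l := by
  have h1 := (hSMG c R P Φ Hf C H hA hK lam hPer j l 0).1.continuousOn
  have h2 : Continuous fun x : Fin (2 * k) → ℝ => (z, x) := by fun_prop
  have h3 := h1.comp_continuous h2 fun x => ⟨hz, mem_univ _⟩
  exact h3

theorem wf_shift {m : ℕ} {φ : (Fin m → ℝ) → ℝ} (h : WF φ) (v : Fin m → ℝ) :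
    WF fun y => φ (y - v) := by
  refine ⟨h.1.comp (by fun_prop), ?_⟩
  exact h.2.comp_homeomorph (Homeomorph.subRight v)

theorem wf_integrable_mul {m : ℕ} {φ f : (Fin m → ℝ) → ℝ} (h : WF φ) (hf : Continuous f) :
    Integrable fun y => φ y * f y :=
  (h.1.continuous.mul hf).integrable_of_hasCompactSupport h.2.mul_right

theorem wf_integral_close {m : ℕ} {φ f g : (Fin m → ℝ) → ℝ} (h : WF φ) (hf : Continuous f)
    (hg : Continuous g) {K : ℝ} (hK : ∀ y, |f y - g y| ≤ K) :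
    |(∫ y, φ y * f y) - ∫ y, φ y * g y| ≤ (∫ y, |φ y|) * K := by
  rw [← integral_sub (wf_integrable_mul h hf) (wf_integrable_mul h hg), ← integral_mul_const]
  have h1 : Integrable fun y => |φ y| * K :=
    ((h.1.continuous.integrable_of_hasCompactSupport h.2).abs).mul_const K
  have h2 := norm_integral_le_of_norm_le (f := fun y => φ y * f y - φ y * g y) h1
    (Filter.Eventually.of_forall fun y => by
      rw [← mul_sub, Real.norm_eq_abs, abs_mul]
      exact mul_le_mul_of_nonneg_left (hK y) (abs_nonneg _))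
  exact h2

/-- Entries close to the identity. -/
theorem trf_close {m : ℕ} {Q : Matrix (Fin m) (Fin m) ℝ} {κ K2 : ℝ} (hκ : 0 ≤ κ) (hκ1 : κ ≤ 1)
    (hQ : ∀ p q, |Q p q - (1 : Matrix (Fin m) (Fin m) ℝ) p q| ≤ κ)
    {f : Fin m → Fin m → ℝ} (hf : ∀ p q, |f p q| ≤ K2) (j l : Fin m) :
    |(∑ p, ∑ q, Q p j * Q q l * f p q) - f j l| ≤ (m : ℝ) * (m : ℝ) * (3 * κ * K2) := by
  have h1 : f j l = ∑ p, ∑ q, (1 : Matrix (Fin m) (Fin m) ℝ) p j *
      (1 : Matrix (Fin m) (Fin m) ℝ) q l * f p q := by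
    rw [Finset.sum_eq_single j, Finset.sum_eq_single l]
    · simp
    · intro q _ hq
      simp [hq]
    · intro h
      exact absurd (Finset.mem_univ _) h
    · intro p _ hp
      refine Finset.sum_eq_zero fun q _ => ?_
      simp [Matrix.one_apply, hp]
    · intro h
      exact absurd (Finset.mem_univ _) h
  have hone : ∀ p q, |(1 : Matrix (Fin m) (Fin m) ℝ) p q| ≤ 1 := by
    intro p q
    by_cases h : p = q
    · subst h
      simp
    · simp [h]
  rw [h1, ← Finset.sum_sub_distrib]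
  calc |∑ p, (∑ q, Q p j * Q q l * f p q - ∑ q, (1 : Matrix (Fin m) (Fin m) ℝ) p j *
        (1 : Matrix (Fin m) (Fin m) ℝ) q l * f p q)|
      ≤ ∑ p, |∑ q, Q p j * Q q l * f p q - ∑ q, (1 : Matrix (Fin m) (Fin m) ℝ) p j *
        (1 : Matrix (Fin m) (Fin m) ℝ) q l * f p q| := Finset.abs_sum_le_sum_abs _ _
    _ ≤ ∑ _p : Fin m, (m : ℝ) * (3 * κ * K2) := by
        refine Finset.sum_le_sum fun p _ => ?_
        rw [← Finset.sum_sub_distrib]
        calc |∑ q, (Q p j * Q q l * f p q - (1 : Matrix (Fin m) (Fin m) ℝ) p j *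
              (1 : Matrix (Fin m) (Fin m) ℝ) q l * f p q)|
            ≤ ∑ q, |Q p j * Q q l * f p q - (1 : Matrix (Fin m) (Fin m) ℝ) p j *
              (1 : Matrix (Fin m) (Fin m) ℝ) q l * f p q| := Finset.abs_sum_le_sum_abs _ _
          _ ≤ ∑ _q : Fin m, 3 * κ * K2 := by
              refine Finset.sum_le_sum fun q _ => ?_
              have e1 : Q p j * Q q l * f p q - (1 : Matrix (Fin m) (Fin m) ℝ) p j *
                  (1 : Matrix (Fin m) (Fin m) ℝ) q l * f p q =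
                  ((Q p j - (1 : Matrix (Fin m) (Fin m) ℝ) p j) *
                    (Q q l - (1 : Matrix (Fin m) (Fin m) ℝ) q l) +
                  (Q p j - (1 : Matrix (Fin m) (Fin m) ℝ) p j) *
                    (1 : Matrix (Fin m) (Fin m) ℝ) q l +
                  (1 : Matrix (Fin m) (Fin m) ℝ) p j *
                    (Q q l - (1 : Matrix (Fin m) (Fin m) ℝ) q l)) * f p q := by ring
              rw [e1, abs_mul]
              have a1 := hQ p j
              have a2 := hQ q l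
              have a3 := hone p j
              have a4 := hone q l
              have a5 := hf p q
              have e2 : |(Q p j - (1 : Matrix (Fin m) (Fin m) ℝ) p j) *
                    (Q q l - (1 : Matrix (Fin m) (Fin m) ℝ) q l) +
                  (Q p j - (1 : Matrix (Fin m) (Fin m) ℝ) p j) *
                    (1 : Matrix (Fin m) (Fin m) ℝ) q l +
                  (1 : Matrix (Fin m) (Fin m) ℝ) p j *
                    (Q q l - (1 : Matrix (Fin m) (Fin m) ℝ) q l)| ≤ 3 * κ := by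
                refine (abs_add_three _ _ _).trans ?_
                rw [abs_mul, abs_mul, abs_mul]
                have b1 : |Q p j - (1 : Matrix (Fin m) (Fin m) ℝ) p j| *
                    |Q q l - (1 : Matrix (Fin m) (Fin m) ℝ) q l| ≤ κ * 1 :=
                  mul_le_mul a1 (a2.trans hκ1) (abs_nonneg _) hκ
                have b2 : |Q p j - (1 : Matrix (Fin m) (Fin m) ℝ) p j| *
                    |(1 : Matrix (Fin m) (Fin m) ℝ) q l| ≤ κ * 1 :=
                  mul_le_mul a1 a4 (abs_nonneg _) hκ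
                have b3 : |(1 : Matrix (Fin m) (Fin m) ℝ) p j| *
                    |Q q l - (1 : Matrix (Fin m) (Fin m) ℝ) q l| ≤ 1 * κ :=
                  mul_le_mul a3 a2 (abs_nonneg _) (by norm_num)
                linarith
              exact mul_le_mul e2 a5 (abs_nonneg _) (by positivity)
          _ = (m : ℝ) * (3 * κ * K2) := by
              rw [Finset.sum_const, Finset.card_univ, Fintype.card_fin, nsmul_eq_mul]
    _ = (m : ℝ) * (m : ℝ) * (3 * κ * K2) := by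
        rw [Finset.sum_const, Finset.card_univ, Fintype.card_fin, nsmul_eq_mul]
        ring

/-- TRLG. -/
theorem trlg (hBDG : S_BDG) (hTRF : S_TRF) (hSHF : S_SHF) (hVARG : S_VARG) (hSMG : S_SMG) :
    S_TRLG := by
  intro b k N c R P Φ Hf C H hA hK lam hPer hLim φ hφ z hz v j l
  obtain ⟨K, hKpos, hKb⟩ := hBDG c R P Φ Hf C H hA hK
  obtain ⟨K2, hK2, hfL⟩ := fL_le hPer hKpos fun z hz w u v => (hKb z hz w u v).1
  obtain ⟨B0, hB0, hB0b⟩ := hPer.bdd
  obtain ⟨i, hi⟩ := mem_iUnion.1 hz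
  have hφv : WF fun y => φ (y - v) := wf_shift hφ v
  have hI0 : 0 ≤ ∫ y, |φ y| := integral_nonneg fun y => abs_nonneg _
  set I0 : ℝ := ∫ y, |φ y| with hI0def
  set m : ℝ := ((2 * k : ℕ) : ℝ) with hm
  have hm0 : 0 ≤ m := Nat.cast_nonneg _
  have hdz : dist z (c i) < 2 := hi
  set ρ : ℝ := (dist z (c i) + 2) / 2 with hρ
  have hρ2 : ρ < 2 := by linarith
  have hρz : dist z (c i) < ρ := by linarith
  rw [Metric.tendsto_atTop]
  intro ε hε
  -- the constants
  obtain ⟨δ, hδ, hshf⟩ := hSHF φ (1 : Matrix (Fin (2 * k)) (Fin (2 * k)) ℝ) v hφ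
    (by rw [Matrix.det_one]; exact one_ne_zero) K2 (ε / 4) (by positivity)
  set D : ℝ := (I0 + 1) * (m * m * (3 * K2) + 1) with hD
  have hDpos : 0 < D := by positivity
  obtain ⟨κ, hκ, hκδ, hκ1, hκD⟩ : ∃ κ : ℝ, 0 < κ ∧ κ ≤ δ ∧ κ ≤ 1 ∧ κ * D ≤ ε / 4 := by
    refine ⟨min δ (min 1 (ε / 4 / D)), lt_min hδ (lt_min one_pos (by positivity)),
      min_le_left _ _, (min_le_right _ _).trans (min_le_left _ _), ?_⟩
    calc min δ (min 1 (ε / 4 / D)) * D ≤ ε / 4 / D * D :=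
          mul_le_mul_of_nonneg_right ((min_le_right _ _).trans (min_le_right _ _)) hDpos.le
      _ = ε / 4 := by field_simp
  set Z : ℝ := 2 * B0 * (B0 + m + 1) * (1 + ‖v‖) with hZ
  have hv0 := norm_nonneg v
  have hZpos : 0 < Z := by positivity
  set η : ℝ := κ / Z with hη
  have hηpos : 0 < η := by positivity
  have hηZ : Z * η = κ := by
    rw [hη]
    field_simp
  -- continuity of the periods
  have hz3 : z ∈ Bd c 3 := mem_iUnion.2 ⟨i, ball_subset_ball (by norm_num) hi⟩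
  have hopen3 : IsOpen (Bd c 3) := isOpen_iUnion fun _ => isOpen_ball
  have hlc : ∀ j, ContinuousAt (lam j) z := fun j =>
    ((hPer.holo j).differentiableAt (hopen3.mem_nhds hz3)).continuousAt
  obtain ⟨δc, hδc, hcont⟩ : ∃ δc > 0, ∀ z₁, dist z₁ z < δc → ∀ j, ‖lam j z - lam j z₁‖ ≤ η := by
    have h1 : ∀ᶠ z₁ in 𝓝 z, ∀ j, ‖lam j z - lam j z₁‖ ≤ η := by
      rw [Filter.eventually_all]
      intro j
      have h2 := (Metric.continuousAt_iff'.1 (hlc j)) η hηpos
      refine h2.mono fun z₁ h3 => ?_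
      rw [dist_comm, dist_eq_norm] at h3
      exact h3.le
    obtain ⟨δc, hδc, h2⟩ := Metric.eventually_nhds_iff.1 h1
    exact ⟨δc, hδc, fun z₁ h3 => h2 h3⟩
  set ε' : ℝ := min η (min (δc / 2) (ρ - dist z (c i))) with hε'
  have hε'pos : 0 < ε' := lt_min hηpos (lt_min (by positivity) (by linarith))
  have hε'η : ε' ≤ η := min_le_left _ _
  have hε'c : ε' < δc := by
    have : ε' ≤ δc / 2 := (min_le_right _ _).trans (min_le_left _ _)
    linarith
  have hε'ρ : ε' ≤ ρ - dist z (c i) := (min_le_right _ _).trans (min_le_right _ _)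
  obtain ⟨B, hLimB⟩ := hLim i ε' hε'pos
  obtain ⟨s₀, hs₀, hvar⟩ := hVARG c R P Φ Hf C H hA hK lam hPer hLim (fun y => φ (y - v)) hφv i ρ
    hρ2 (ε / 4) (by positivity)
  refine ⟨max s₀ (max 1 (2 * B0 * |B| / κ)), fun s hs => ?_⟩
  have hs0 : s₀ ≤ s := (le_max_left _ _).trans hs
  have hs1 : 1 ≤ s := (le_max_left _ _).trans ((le_max_right _ _).trans hs)
  have hs2 : 2 * B0 * |B| / κ ≤ s := (le_max_right _ _).trans ((le_max_right _ _).trans hs)
  have hspos : 0 < s := by linarith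
  obtain ⟨t, htB, ht⟩ := hLimB (s • v)
  have hz3i : z ∈ ball (c i) 3 := ball_subset_ball (by norm_num) hi
  obtain ⟨t1, t2, t3⟩ := ht z hz3i
  set z₁ := t.g z with hz₁
  have hdz1 : dist z₁ z < δc := by
    rw [dist_eq_norm]
    linarith
  have hz1ρ : dist z₁ (c i) ≤ ρ := by
    have h1 := dist_triangle z₁ z (c i)
    rw [dist_eq_norm z₁ z] at h1
    linarith
  have hz1i : z₁ ∈ ball (c i) 2 := by
    rw [mem_ball]
    linarith
  have hz1 : z₁ ∈ Bd c 2 := mem_iUnion.2 ⟨i, hz1i⟩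
  have hz13 : z₁ ∈ Bd c 3 := mem_iUnion.2 ⟨i, ball_subset_ball (by norm_num) hz1i⟩
  have hz4 : z ∈ ball (c i) 4 := ball_subset_ball (by norm_num) hi
  obtain ⟨Q, U', hQdet, hU', hzU', hU'U, hQ⟩ := hPer.trans (ball (c i) 4) t htB.1 z hz4 hz hz1
  have hQz := hQ z hzU'
  obtain ⟨y, hy⟩ := Lx_surj hPer hz13 (t.β z)
  have hη' : ∀ j, ‖lam j z - lam j z₁‖ ≤ η := hcont z₁ hdz1
  -- the entries of `Q - 1`
  have hQ1 : ∀ x : Fin (2 * k) → ℝ, ‖(Q - 1) *ᵥ x‖ ≤ κ * ‖x‖ := by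
    intro x
    have h1 := (hB0b z₁ hz13 ((Q - 1) *ᵥ x)).2
    have h2 : ∑ j, ((((Q - 1) *ᵥ x) j : ℝ) : ℂ) • lam j z₁ =
        (t.A z - 1) *ᵥ Lx lam z x + (Lx lam z x - Lx lam z₁ x) := by
      have e1 : (∑ j, ((((Q - 1) *ᵥ x) j : ℝ) : ℂ) • lam j z₁) = LxL lam z₁ ((Q - 1) *ᵥ x) := rfl
      rw [e1, Matrix.sub_mulVec, Matrix.one_mulVec, map_sub, LxL_apply, LxL_apply,
        Lx_mulVec hQz x, Matrix.sub_mulVec, Matrix.one_mulVec]
      abel
    rw [h2] at h1
    have h3 : ‖(t.A z - 1) *ᵥ Lx lam z x‖ ≤ η * (B0 * ‖x‖) := by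
      refine (t2 _).trans ?_
      exact mul_le_mul hε'η (hB0b z hz3 x).1 (norm_nonneg _) hηpos.le
    have h4 := Lx_diff_le hη' x
    have h5 := norm_add_le ((t.A z - 1) *ᵥ Lx lam z x) (Lx lam z x - Lx lam z₁ x)
    have hx0 := norm_nonneg x
    calc ‖(Q - 1) *ᵥ x‖ ≤ B0 * (η * (B0 * ‖x‖) + m * η * ‖x‖) :=
          h1.trans (mul_le_mul_of_nonneg_left (h5.trans (add_le_add h3 h4)) hB0.le)
      _ ≤ Z * η * ‖x‖ := by
          have e : B0 * (η * (B0 * ‖x‖) + m * η * ‖x‖) = (B0 * (B0 + m)) * η * ‖x‖ := by ring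
          rw [e]
          refine mul_le_mul_of_nonneg_right (mul_le_mul_of_nonneg_right ?_ hηpos.le) hx0
          rw [hZ]
          have : 0 ≤ B0 * (B0 + m) := by positivity
          nlinarith [mul_nonneg this hv0, mul_nonneg hB0.le hv0]
      _ = κ * ‖x‖ := by rw [hηZ]
  have hQe : ∀ p q, |Q p q - (1 : Matrix (Fin (2 * k)) (Fin (2 * k)) ℝ) p q| ≤ κ := by
    intro p q
    have h1 := hQ1 (Pi.single q 1)
    rw [Pi.norm_single, norm_one, mul_one] at h1
    have h2 := (norm_le_pi_norm ((Q - 1) *ᵥ (Pi.single q 1)) p).trans h1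
    rw [Matrix.mulVec_single_one] at h2
    simpa using h2
  -- the translation part
  have hyv : ‖s⁻¹ • y - v‖ ≤ κ := by
    have h1 := (hB0b z₁ hz13 (y - s • v)).2
    have h2 : ∑ j, (((y - s • v) j : ℝ) : ℂ) • lam j z₁ =
        (t.β z - ∑ j, (((s • v) j : ℝ) : ℂ) • lam j z) +
          s • (Lx lam z v - Lx lam z₁ v) := by
      have e1 : (∑ j, (((y - s • v) j : ℝ) : ℂ) • lam j z₁) = LxL lam z₁ (y - s • v) := rfl
      have e2 : (∑ j, (((s • v) j : ℝ) : ℂ) • lam j z) = LxL lam z (s • v) := rfl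
      rw [e1, e2, map_sub, map_smul, map_smul, LxL_apply, LxL_apply, LxL_apply, hy, smul_sub]
      abel
    rw [h2] at h1
    have h4 := Lx_diff_le hη' v
    have h5 : ‖s • (Lx lam z v - Lx lam z₁ v)‖ ≤ s * (m * η * ‖v‖) := by
      rw [norm_smul, Real.norm_of_nonneg hspos.le]
      exact mul_le_mul_of_nonneg_left h4 hspos.le
    have h6 : ‖t.β z - ∑ j, (((s • v) j : ℝ) : ℂ) • lam j z‖ ≤ η * (s * ‖v‖) + |B| := by
      refine t3.trans ?_
      rw [norm_smul, Real.norm_of_nonneg hspos.le]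
      have := le_abs_self B
      have h7 : ε' * (s * ‖v‖) ≤ η * (s * ‖v‖) :=
        mul_le_mul_of_nonneg_right hε'η (by positivity)
      linarith
    have h7 : ‖y - s • v‖ ≤ B0 * (η * (s * ‖v‖) + |B| + s * (m * η * ‖v‖)) :=
      h1.trans (mul_le_mul_of_nonneg_left ((norm_add_le _ _).trans (add_le_add h6 h5)) hB0.le)
    have h8 : s⁻¹ • y - v = s⁻¹ • (y - s • v) := by
      rw [smul_sub, smul_smul, inv_mul_cancel₀ hspos.ne', one_smul]
    rw [h8, norm_smul, norm_inv, Real.norm_of_nonneg hspos.le, inv_mul_le_iff₀ hspos]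
    refine h7.trans ?_
    have h9 : B0 * |B| ≤ s * (κ / 2) := by
      rw [div_le_iff₀ hκ] at hs2
      linarith
    have h10 : B0 * (η * (s * ‖v‖) + s * (m * η * ‖v‖)) ≤ s * (κ / 2) := by
      have e : B0 * (η * (s * ‖v‖) + s * (m * η * ‖v‖)) = s * ((B0 * (1 + m) * ‖v‖) * η) := by
        ring
      rw [e]
      refine mul_le_mul_of_nonneg_left ?_ hspos.le
      rw [← hηZ, hZ]
      have e2 : 2 * B0 * (B0 + m + 1) * (1 + ‖v‖) * η / 2 =
          (B0 * (B0 + m + 1) * (1 + ‖v‖)) * η := by ring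
      rw [e2]
      refine mul_le_mul_of_nonneg_right ?_ hηpos.le
      have a1 : 0 ≤ B0 * (B0 + m + 1) := by positivity
      have a2 : 0 ≤ B0 * B0 * ‖v‖ := by positivity
      nlinarith
    nlinarith
  -- the transformation
  have hz1f : ∀ x, |fL H lam z x j l - fL H lam z₁ (Q *ᵥ x + y) j l| ≤
      m * m * (3 * κ * K2) := by
    intro x
    rw [hTRF c R P Φ Hf C H hA hK lam (ball (c i) 4) t htB.1 z hz4 Q y hQz hy x j l]
    exact trf_close hκ.le hκ1 hQe (fun p q => hfL z₁ hz1 (Q *ᵥ x + y) p q) j l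
  have hc0 : Continuous fun x => fL H lam z x j l := fL_cont hSMG hA hK hPer hz3 j l
  have hc1 : Continuous fun x => fL H lam z₁ x j l := fL_cont hSMG hA hK hPer hz13 j l
  have hmv : Continuous fun u : Fin (2 * k) → ℝ => s • (Q *ᵥ u + s⁻¹ • y) := by
    have : Continuous fun u : Fin (2 * k) → ℝ => Q *ᵥ u := by
      exact Continuous.matrix_mulVec continuous_const continuous_id
    exact (this.add continuous_const).const_smul s
  have hint : |TN H lam φ z s j l -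
      ∫ u, φ u * fL H lam z₁ (s • (Q *ᵥ u + s⁻¹ • y)) j l| ≤ I0 * (m * m * (3 * κ * K2)) := by
    refine wf_integral_close hφ (f := fun u => fL H lam z (s • u) j l)
      (g := fun u => fL H lam z₁ (s • (Q *ᵥ u + s⁻¹ • y)) j l)
      (hc0.comp (continuous_const_smul s)) (hc1.comp hmv) fun u => ?_
    have e : s • (Q *ᵥ u + s⁻¹ • y) = Q *ᵥ (s • u) + y := by
      rw [smul_add, smul_smul, mul_inv_cancel₀ hspos.ne', one_smul, Matrix.mulVec_smul]
    rw [e]
    exact hz1f (s • u)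
  have hb1 := hshf (fun x => fL H lam z₁ (s • x) j l) (hc1.comp (continuous_const_smul s))
    (fun x => hfL z₁ hz1 (s • x) j l) Q (s⁻¹ • y)
    (fun p q => (hQe p q).trans hκδ) (hyv.trans hκδ) 1 one_pos
  simp only [one_smul] at hb1
  have e3 : (∫ u, (|(1 : Matrix (Fin (2 * k)) (Fin (2 * k)) ℝ).det|⁻¹ *
      φ ((1 : Matrix (Fin (2 * k)) (Fin (2 * k)) ℝ)⁻¹ *ᵥ (u - v))) *
      fL H lam z₁ (s • u) j l) = TN H lam (fun y => φ (y - v)) z₁ s j l := by
    unfold TN
    simp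
  rw [e3] at hb1
  have hb2 := hvar s hs0 z (mem_closedBall.2 hρz.le) z₁ (mem_closedBall.2 hz1ρ) j l
  rw [Real.dist_eq, sub_zero]
  have hb3 : I0 * (m * m * (3 * κ * K2)) ≤ ε / 4 := by
    refine le_trans ?_ hκD
    rw [hD]
    have a1 : 0 ≤ m * m * (3 * K2) := by positivity
    have e : I0 * (m * m * (3 * κ * K2)) = κ * (I0 * (m * m * (3 * K2))) := by ring
    rw [e]
    refine mul_le_mul_of_nonneg_left ?_ hκ.le
    nlinarith
  have e4 : TN H lam (fun y => φ (y - v)) z s j l - TN H lam φ z s j l =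
      (TN H lam (fun y => φ (y - v)) z s j l - TN H lam (fun y => φ (y - v)) z₁ s j l) -
      ((∫ u, φ u * fL H lam z₁ (s • (Q *ᵥ u + s⁻¹ • y)) j l) -
        TN H lam (fun y => φ (y - v)) z₁ s j l) -
      (TN H lam φ z s j l - ∫ u, φ u * fL H lam z₁ (s • (Q *ᵥ u + s⁻¹ • y)) j l) := by ring
  rw [e4]
  have a1 := abs_sub (TN H lam (fun y => φ (y - v)) z s j l -
    TN H lam (fun y => φ (y - v)) z₁ s j l)
      ((∫ u, φ u * fL H lam z₁ (s • (Q *ᵥ u + s⁻¹ • y)) j l) -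
        TN H lam (fun y => φ (y - v)) z₁ s j l)
  have a2 := abs_sub ((TN H lam (fun y => φ (y - v)) z s j l -
    TN H lam (fun y => φ (y - v)) z₁ s j l) -
      ((∫ u, φ u * fL H lam z₁ (s • (Q *ᵥ u + s⁻¹ • y)) j l) -
        TN H lam (fun y => φ (y - v)) z₁ s j l))
      (TN H lam φ z s j l - ∫ u, φ u * fL H lam z₁ (s • (Q *ᵥ u + s⁻¹ • y)) j l)
  linarith

end Pool.Agent.Helper93.RK
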