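import Pool.Agent.Helper45.RK.GoalsG
import Pool.Agent.Helper40.SP.ANG
import Pool.Agent.Helper53.SP.RescA

/-! # ANGK: elements in the direction of a generator whose linear part is near `1` -/

open Complex Metric Set Filter Topology
open scoped ContDiff ComplexConjugate Matrix

namespace Pool.Agent.Helper93.RK

open Pool.Agent.Helper95.Lin Pool.Agent.Helper10.SP Pool.Agent.Helper45.SP
open Pool.Agent.Helper95.RK Pool.Agent.Helper45.RK
open Pool.Agent.Helper40.SP (exists_small)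
open Pool.Agent.Helper53.SP (eqOn_ball)

/-- Among sufficiently many bounded matrices two are close. -/
theorem pigeon_matrix (k : ℕ) (C : ℝ) {ε : ℝ} (hε : 0 < ε) : ∃ K : ℕ, 0 < K ∧
    ∀ M : ℕ → Matrix (Fin k) (Fin k) ℂ, (∀ l ≤ K, ∀ p q, ‖M l p q‖ ≤ C) →
    ∃ i j, i < j ∧ j ≤ K ∧ ∀ p q, ‖M j p q - M i p q‖ ≤ ε := by
  have hC : IsCompact (closedBall (0 : Fin k → Fin k → ℂ) (max C 0)) := isCompact_closedBall _ _
  obtain ⟨T, -, hTf, hTc⟩ := hC.finite_cover_balls (half_pos hε)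
  refine ⟨hTf.toFinset.card + 1, Nat.succ_pos _, fun M hM => ?_⟩
  have h1 : ∀ l ∈ Finset.range (hTf.toFinset.card + 2), ∃ x ∈ hTf.toFinset,
      (fun p q => M l p q) ∈ ball x (ε / 2) := by
    intro l hl
    have h2 : (fun p q => M l p q) ∈ closedBall (0 : Fin k → Fin k → ℂ) (max C 0) := by
      rw [mem_closedBall, dist_zero_right]
      refine (pi_norm_le_iff_of_nonneg (le_max_right _ _)).2 fun p => ?_
      refine (pi_norm_le_iff_of_nonneg (le_max_right _ _)).2 fun q => ?_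
      exact (hM l (by rw [Finset.mem_range] at hl; omega) p q).trans (le_max_left _ _)
    obtain ⟨x, hx, hxM⟩ := mem_iUnion₂.1 (hTc h2)
    exact ⟨x, hTf.mem_toFinset.2 hx, hxM⟩
  choose! f hf hfM using h1
  obtain ⟨i, hi, j, hj, hij, hfij⟩ := Finset.exists_ne_map_eq_of_card_lt_of_maps_to
    (s := Finset.range (hTf.toFinset.card + 2)) (t := hTf.toFinset) (f := f)
    (by rw [Finset.card_range]; omega) (fun l hl => hf l hl)
  have key : ∀ i j, i ∈ Finset.range (hTf.toFinset.card + 2) →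
      j ∈ Finset.range (hTf.toFinset.card + 2) → f i = f j → ∀ p q, ‖M j p q - M i p q‖ ≤ ε := by
    intro i j hi hj hfij p q
    have h3 := hfM i hi
    have h4 := hfM j hj
    rw [← hfij] at h4
    rw [mem_ball] at h3 h4
    have h5 : dist (fun p q => M j p q) (fun p q => M i p q) ≤ ε := by
      have := dist_triangle_right (fun p q => M j p q) (fun p q => M i p q) (f i)
      linarith
    have h6 := (dist_le_pi_dist (fun p q => M j p q) (fun p q => M i p q) p).trans h5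
    have h7 := (dist_le_pi_dist (fun q => M j p q) (fun q => M i p q) q).trans h6
    rwa [dist_eq_norm] at h7
  have hi' := Finset.mem_range.1 hi
  have hj' := Finset.mem_range.1 hj
  rcases lt_or_gt_of_ne hij with h | h
  · exact ⟨i, j, h, by omega, key i j hi hj hfij⟩
  · exact ⟨j, i, h, by omega, key j i hj hi hfij.symm⟩

theorem angk (hPEX : S_PEXK) (hCAU : S_CAU) : S_ANGK := by
  intro b k z₀ r A hA V hV ρ₀ hρ₀ ε₀ hε₀
  have hr : 0 < r := hA.pos
  -- normalizations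
  obtain ⟨ε, hε, hε1, hεε₀⟩ : ∃ ε : ℝ, 0 < ε ∧ ε ≤ 1 ∧ ε ≤ ε₀ :=
    ⟨min ε₀ 1, lt_min hε₀ one_pos, min_le_right _ _, min_le_left _ _⟩
  obtain ⟨ρ, hρ0, hρr, hρρ₀, hρ2⟩ : ∃ ρ : ℝ, 0 < ρ ∧ ρ < r ∧ ρ₀ ≤ ρ ∧ r / 2 ≤ ρ :=
    ⟨max ρ₀ (r / 2), lt_max_of_lt_right (by linarith), max_lt hρ₀ (by linarith),
      le_max_left _ _, le_max_right _ _⟩
  obtain ⟨ρ₁, hρ₁, hρ₁r⟩ : ∃ ρ₁ : ℝ, ρ < ρ₁ ∧ ρ₁ < r := exists_between hρr
  have hbr : ball z₀ ρ₁ ⊆ ball z₀ r := ball_subset_ball hρ₁r.le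
  have hcb : closedBall z₀ ρ₁ ⊆ ball z₀ r := closedBall_subset_ball hρ₁r
  have hcomp : IsCompact (closedBall z₀ ρ₁) := isCompact_closedBall _ _
  obtain ⟨hVd, -, hVg⟩ := hV
  obtain ⟨B, hB'⟩ := hcomp.exists_bound_of_continuousOn (hVd.continuousOn.mono hcb)
  have hz₀c : z₀ ∈ closedBall z₀ ρ₁ := mem_closedBall_self (by linarith)
  have hB0 : 0 ≤ B := (norm_nonneg _).trans (hB' _ hz₀c)
  have hB : ∀ z ∈ ball z₀ ρ₁, ‖V z‖ ≤ B := fun z hz => hB' z (ball_subset_closedBall hz)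
  obtain ⟨L, hL'⟩ := hcomp.exists_bound_of_continuousOn
    ((holo_fderiv isOpen_ball hVd).continuousOn.mono hcb)
  have hL0 : 0 ≤ L := (norm_nonneg _).trans (hL' _ hz₀c)
  have hL : ∀ y ∈ ball z₀ ρ₁, ∀ z ∈ ball z₀ ρ₁, ‖V y - V z‖ ≤ L * ‖y - z‖ := by
    intro y hy z hz
    refine Convex.norm_image_sub_le_of_norm_fderiv_le (𝕜 := ℂ) (f := V) (s := ball z₀ ρ₁) ?_ ?_
      (convex_ball _ _) hz hy
    · intro x hx
      exact hVd.differentiableAt (isOpen_ball.mem_nhds (hbr hx))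
    · intro x hx
      exact hL' x (ball_subset_closedBall hx)
  -- the constants
  obtain ⟨cE, hcE, hE⟩ := hPEX hA.toLGrpK ρ hρ0 hρr
  obtain ⟨C, hC1, hC⟩ := hA.abd
  have hC0 : 0 < C := by linarith
  have hk1 : (0 : ℝ) < (k : ℝ) + 1 := by positivity
  obtain ⟨K, hK0, hK⟩ := pigeon_matrix k C (ε := ε / (4 * ((k : ℝ) + 1) * C)) (by positivity)
  have hK1 : (1 : ℝ) ≤ K := by exact_mod_cast hK0
  obtain ⟨σ₀, hσ₀, hgen⟩ := hVg ρ₁ hρ₁r (ε / 4) (by linarith)
  obtain ⟨K', hK's, -, -, C', hC'0, hcau⟩ := hCAU (n := b) (m := 1) (ball z₀ r) isOpen_ball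
    (closedBall z₀ (r / 2)) (closedBall_subset_ball (by linarith)) (isCompact_closedBall _ _)
  set Q : ℝ := (k : ℝ) * (C' * C) with hQ
  have hQ0 : 0 ≤ Q := by positivity
  -- all conditions
  obtain ⟨μ, hμ, hμ1⟩ : ∃ μ : ℝ, 0 < μ ∧ μ ≤ σ₀ ∧ μ ≤ ρ₁ - ρ ∧ μ ≤ r / 6 ∧ μ ≤ cE ∧ μ ≤ ε ∧
      μ ≤ ε / 4 := by
    refine ⟨min σ₀ (min (ρ₁ - ρ) (min (r / 6) (min cE (ε / 4)))), ?_, ?_⟩
    · have h1 : 0 < ρ₁ - ρ := by linarith
      have h2 : 0 < r / 6 := by linarith
      have h3 : 0 < ε / 4 := by linarith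
      simp only [lt_min_iff]
      exact ⟨hσ₀, h1, h2, hcE, h3⟩
    · set m := min σ₀ (min (ρ₁ - ρ) (min (r / 6) (min cE (ε / 4)))) with hm
      have h0 : m ≤ m := le_rfl
      conv at h0 => rhs; rw [hm]
      simp only [le_min_iff] at h0
      obtain ⟨a1, a2, a3, a4, a5⟩ := h0
      exact ⟨a1, a2, a3, a4, by linarith, a5⟩
  obtain ⟨hμ1, hμ2, hμ3, hμ4, hμ5, hμ6⟩ := hμ1
  set M : ℝ := K * (B + 1) * (1 + L) * (1 + Q) with hM
  obtain ⟨s, hs0, hsμ, hsM, -⟩ := exists_small (K := K) (M := M) (D := 0) (ε := ε / 2)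
    (μ := μ) (by linarith) hμ
  have hB1 : 1 ≤ B + 1 := by linarith
  have hL1 : 1 ≤ 1 + L := by linarith
  have hQ1 : 1 ≤ 1 + Q := by linarith
  have hLC : 1 ≤ (1 + L) * (1 + Q) := one_le_mul_of_one_le_of_one_le hL1 hQ1
  have hKB0 : 0 ≤ (K : ℝ) * (B + 1) := by positivity
  have hKB : B + 1 ≤ (K : ℝ) * (B + 1) := le_mul_of_one_le_left (by linarith) hK1
  have hKK : (K : ℝ) ≤ K * (B + 1) := le_mul_of_one_le_right (by linarith) hB1
  have hMe : M = K * (B + 1) * ((1 + L) * (1 + Q)) := by rw [hM]; ring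
  have hMKB : K * (B + 1) ≤ M := by
    rw [hMe]; exact le_mul_of_one_le_right hKB0 hLC
  have hLLC : L ≤ (1 + L) * (1 + Q) :=
    (by linarith : L ≤ 1 + L).trans (le_mul_of_one_le_right (by linarith) hQ1)
  have hCLC : Q ≤ (1 + L) * (1 + Q) :=
    (by linarith : Q ≤ 1 + Q).trans (le_mul_of_one_le_left (by linarith) hL1)
  have hM1 : K * s ≤ M * s := mul_le_mul_of_nonneg_right (hKK.trans hMKB) hs0.le
  have hM2 : K * s * (B + 1) ≤ M * s := by
    have := mul_le_mul_of_nonneg_right hMKB hs0.le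
    calc K * s * (B + 1) = K * (B + 1) * s := by ring
      _ ≤ M * s := this
  have hM3 : L * (K * s * (B + 1)) ≤ M * s := by
    have h3 : (K : ℝ) * (B + 1) * L ≤ M := by
      rw [hMe]; exact mul_le_mul_of_nonneg_left hLLC hKB0
    calc L * (K * s * (B + 1)) = K * (B + 1) * L * s := by ring
      _ ≤ M * s := mul_le_mul_of_nonneg_right h3 hs0.le
  have hM4 : Q * (K * s * (B + 1)) ≤ M * s := by
    have h3 : (K : ℝ) * (B + 1) * Q ≤ M := by
      rw [hMe]; exact mul_le_mul_of_nonneg_left hCLC hKB0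
    calc Q * (K * s * (B + 1)) = K * (B + 1) * Q * s := by ring
      _ ≤ M * s := mul_le_mul_of_nonneg_right h3 hs0.le
  have hM5 : (B + 1) * s ≤ M * s := mul_le_mul_of_nonneg_right (hKB.trans hMKB) hs0.le
  -- the element
  obtain ⟨_, ⟨t, ht, rfl⟩, htV'⟩ := hgen s hs0 (hsμ.trans_le hμ1)
  have htV : ∀ z ∈ ball z₀ ρ₁, ‖t.g z - z - s • V z‖ ≤ ε / 4 * s := htV'
  have htn : ∀ z ∈ ball z₀ ρ₁, ‖t.g z - z‖ ≤ (B + 1) * s := by
    intro z hz
    have h1 := htV z hz
    have h2 := hB z hz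
    calc ‖t.g z - z‖ = ‖(t.g z - z - s • V z) + s • V z‖ := by congr 1; abel
      _ ≤ ‖t.g z - z - s • V z‖ + ‖s • V z‖ := norm_add_le _ _
      _ ≤ ε / 4 * s + s * B := by
          rw [norm_smul, Real.norm_of_nonneg hs0.le]
          gcongr
      _ ≤ (B + 1) * s := by
          have : ε / 4 * s ≤ 1 * s := mul_le_mul_of_nonneg_right (by linarith) hs0.le
          linarith
  have hBs : 0 ≤ (B + 1) * s := by positivity
  have htρ : Near z₀ ρ t.g cE := fun z hz =>
    (htn z (ball_subset_ball hρ₁.le hz)).trans (by linarith)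
  obtain ⟨u, huA, hu0, hus⟩ := hE t ht htρ
  set κ : ℝ := ε / 4 + L * (K * s * (B + 1)) with hκ
  have hκε : κ ≤ ε / 2 := by rw [hκ]; linarith
  have hholo := hA.holo
  have hbρ : ball z₀ ρ ⊆ ball z₀ r := ball_subset_ball hρr.le
  have hrel : ∀ l, (∀ z ∈ ball z₀ ρ, ‖(u l).g z - z‖ ≤ K * s * (B + 1)) →
      MapsTo (u l).g (ball z₀ ρ) (ball z₀ ρ₁) ∧ ∀ z ∈ ball z₀ ρ,
        (u (l + 1)).g z = t.g ((u l).g z) ∧
        (u (l + 1)).A z = t.A ((u l).g z) * (u l).A z := by
    intro l hl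
    have hnear : Near z₀ ρ (u l).g cE := fun z hz => (hl z hz).trans (by linarith)
    obtain ⟨d, hd, hmul⟩ := hus l hnear
    have hmaps : MapsTo (u l).g (ball z₀ ρ) (ball z₀ ρ₁) := by
      intro z hz
      have h1 := hl z hz
      rw [mem_ball, dist_eq_norm] at hz ⊢
      calc ‖(u l).g z - z₀‖ = ‖((u l).g z - z) + (z - z₀)‖ := by congr 1; abel
        _ ≤ ‖(u l).g z - z‖ + ‖z - z₀‖ := norm_add_le _ _
        _ < ρ₁ := by linarith
    have hul := hholo _ (huA l)
    have hul1 := hholo _ (huA (l + 1))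
    have htl := hholo _ ht
    have hmr : MapsTo (u l).g (ball z₀ ρ) (ball z₀ r) := fun z hz => hbr (hmaps hz)
    have e1 : EqOn (u (l + 1)).g (fun z => t.g ((u l).g z)) (ball z₀ ρ) :=
      eqOn_ball (hul1.1.mono hbρ) (htl.1.comp (hul.1.mono hbρ) hmr) (mem_ball_self hρ0)
        (Filter.eventually_of_mem (ball_mem_nhds z₀ hd) fun z hz => (hmul z hz).1)
    have e2 : ∀ p q, EqOn (fun z => (u (l + 1)).A z p q)
        (fun z => (t.A ((u l).g z) * (u l).A z) p q) (ball z₀ ρ) := by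
      intro p q
      refine eqOn_ball ((hul1.2.1 p q).mono hbρ) ?_ (mem_ball_self hρ0)
        (Filter.eventually_of_mem (ball_mem_nhds z₀ hd) fun z hz => ?_)
      · simp only [Matrix.mul_apply]
        refine DifferentiableOn.fun_sum fun m _ => ?_
        exact ((htl.2.1 p m).comp (hul.1.mono hbρ) hmr).mul ((hul.2.1 m q).mono hbρ)
      · have h2 := (hmul z hz).2.1
        change (u (l + 1)).A z p q = (t.A ((u l).g z) * (u l).A z) p q
        rw [h2]
        rfl
    exact ⟨hmaps, fun z hz => ⟨e1 hz, by ext p q; exact e2 p q hz⟩⟩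
  -- the estimates of the powers
  have key : ∀ l ≤ K, ∀ z ∈ ball z₀ ρ, ‖(u l).g z - z‖ ≤ l * s * (B + 1) ∧
      ‖(u l).g z - z - ((l : ℝ) * s) • V z‖ ≤ l * s * κ := by
    intro l
    induction l with
    | zero =>
      intro _ z hz
      have h1 := (hu0 z (hbρ hz)).1
      rw [h1]
      constructor <;> simp [TriK.one]
    | succ l ih =>
      intro hl z hz
      have ih1 := ih (by omega)
      have hlK : (l : ℝ) ≤ K := by exact_mod_cast (by omega : l ≤ K)
      have hl0 : (0 : ℝ) ≤ l := Nat.cast_nonneg l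
      have hlsB : l * s * (B + 1) ≤ K * s * (B + 1) := by
        have : 0 ≤ B + 1 := by linarith
        gcongr
      obtain ⟨hmaps, hid⟩ := hrel l fun z hz => (ih1 z hz).1.trans hlsB
      have hy := hmaps hz
      have h1 := htn _ hy
      have h2 := htV _ hy
      have h3 := hL _ hy _ (ball_subset_ball hρ₁.le hz)
      obtain ⟨h4, h5⟩ := ih1 z hz
      constructor
      · rw [(hid z hz).1]
        calc ‖t.g ((u l).g z) - z‖ = ‖(t.g ((u l).g z) - (u l).g z) + ((u l).g z - z)‖ := by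
              congr 1; abel
          _ ≤ ‖t.g ((u l).g z) - (u l).g z‖ + ‖(u l).g z - z‖ := norm_add_le _ _
          _ ≤ (B + 1) * s + l * s * (B + 1) := by linarith
          _ = ((l + 1 : ℕ) : ℝ) * s * (B + 1) := by push_cast; ring
      · rw [(hid z hz).1]
        have e1 : t.g ((u l).g z) - z - (((l + 1 : ℕ) : ℝ) * s) • V z =
            (t.g ((u l).g z) - (u l).g z - s • V ((u l).g z)) +
            ((u l).g z - z - ((l : ℝ) * s) • V z) + s • (V ((u l).g z) - V z) := by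
          push_cast
          rw [add_mul, one_mul, add_smul, smul_sub]
          abel
        rw [e1]
        refine (norm_add₃_le).trans ?_
        have h6 : ‖s • (V ((u l).g z) - V z)‖ ≤ s * (L * (K * s * (B + 1))) := by
          rw [norm_smul, Real.norm_of_nonneg hs0.le]
          refine mul_le_mul_of_nonneg_left (h3.trans ?_) hs0.le
          exact mul_le_mul_of_nonneg_left (h4.trans hlsB) hL0
        have e2 : ((l + 1 : ℕ) : ℝ) * s * κ = ε / 4 * s + l * s * κ +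
            s * (L * (K * s * (B + 1))) := by
          push_cast; rw [hκ]; ring
        rw [e2]
        linarith
  have hbd : ∀ l ≤ K, ∀ z ∈ ball z₀ ρ, ‖(u l).g z - z‖ ≤ K * s * (B + 1) := by
    intro l hl z hz
    have hlK : (l : ℝ) ≤ K := by exact_mod_cast hl
    have : 0 ≤ B + 1 := by linarith
    exact (key l hl z hz).1.trans (by gcongr)
  have hmapz : ∀ i ≤ K, (u i).g z₀ ∈ ball z₀ (r / 6) := by
    intro i hi
    have h1 := hbd i hi z₀ (mem_ball_self hρ0)
    rw [mem_ball, dist_eq_norm]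
    linarith
  -- the products of the linear parts
  have hprod : ∀ i l, i + l ≤ K → (u (i + l)).g z₀ = (u l).g ((u i).g z₀) ∧
      (u (i + l)).A z₀ = (u l).A ((u i).g z₀) * (u i).A z₀ := by
    intro i l
    induction l with
    | zero =>
      intro hi
      have h1 : (u i).g z₀ ∈ ball z₀ r := ball_subset_ball (by linarith) (hmapz i (by omega))
      have h2 := hu0 _ h1
      rw [add_zero, h2.1, h2.2.1]
      simp [TriK.one]
    | succ l ih =>
      intro hi
      obtain ⟨ih1, ih2⟩ := ih (by omega)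
      have hy : (u i).g z₀ ∈ ball z₀ ρ := ball_subset_ball (by linarith) (hmapz i (by omega))
      obtain ⟨a1, a2⟩ := (hrel (i + l) (hbd (i + l) (by omega))).2 z₀ (mem_ball_self hρ0)
      obtain ⟨b1, b2⟩ := (hrel l (hbd l (by omega))).2 _ hy
      rw [← add_assoc, a1, a2, b1, b2, ih1, ih2, Matrix.mul_assoc]
      exact ⟨rfl, rfl⟩
  -- the pigeonhole
  obtain ⟨i, j, hij, hjK, hclose⟩ := hK (fun l => (u l).A z₀) fun l _ p q =>
    (hC _ (huA l) z₀ (mem_ball_self hr)).1.entry p q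
  obtain ⟨l, rfl⟩ := Nat.exists_eq_add_of_lt hij
  set l' := l + 1 with hl'
  have hl'K : i + l' ≤ K := by omega
  have hji : i + l + 1 = i + l' := by omega
  rw [hji] at hclose
  set y := (u i).g z₀ with hy
  have hy6 : y ∈ ball z₀ (r / 6) := hmapz i (by omega)
  obtain ⟨-, hAe⟩ := hprod i l' hl'K
  have hdet : (u i).A z₀ * ((u i).A z₀)⁻¹ = 1 :=
    Matrix.mul_nonsing_inv _ (isUnit_iff_ne_zero.2 (hA.det _ (huA i) z₀ (mem_ball_self hr)))
  have hmb1 : MB ((u l').A y - 1) (ε / 4) := by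
    have e1 : (u l').A y - 1 = ((u (i + l')).A z₀ - (u i).A z₀) * ((u i).A z₀)⁻¹ := by
      rw [Matrix.sub_mul, hdet, hAe, Matrix.mul_assoc, hdet, Matrix.mul_one]
    rw [e1]
    have h1 : MB ((u (i + l')).A z₀ - (u i).A z₀) (k * (ε / (4 * ((k : ℝ) + 1) * C))) :=
      MB.of_entry hclose
    refine (h1.mul (by positivity) (hC _ (huA i) z₀ (mem_ball_self hr)).2).mono ?_
    have e2 : (k : ℝ) * (ε / (4 * ((k : ℝ) + 1) * C)) * C = (k / ((k : ℝ) + 1)) * (ε / 4) := by
      field_simp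
    rw [e2]
    have h2 : (k : ℝ) / ((k : ℝ) + 1) ≤ 1 := by
      rw [div_le_one hk1]
      linarith
    nlinarith
  have hmb2 : MB ((u l').A z₀ - (u l').A y) (ε / 4) := by
    have h1 : ∀ p q, ‖((u l').A z₀ - (u l').A y) p q‖ ≤ C' * C * (K * s * (B + 1)) := by
      intro p q
      have h2 := (hcau (fun z _ => (u l').A z p q) ?_ C ?_).2 z₀
        (mem_closedBall_self (by linarith)) y
        (ball_subset_closedBall (ball_subset_ball (by linarith) hy6))
      · have h3 : ‖z₀ - y‖ ≤ K * s * (B + 1) := by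
          rw [norm_sub_rev]
          exact hbd i (by omega) z₀ (mem_ball_self hρ0)
        have h4 := norm_le_pi_norm ((fun (_ : Fin 1) => (u l').A z₀ p q) -
          fun (_ : Fin 1) => (u l').A y p q) 0
        have h5 : ((u l').A z₀ - (u l').A y) p q = ((fun (_ : Fin 1) => (u l').A z₀ p q) -
          fun (_ : Fin 1) => (u l').A y p q) 0 := rfl
        rw [h5]
        refine h4.trans (h2.trans ?_)
        exact mul_le_mul_of_nonneg_left h3 (by positivity)
      · rw [differentiableOn_pi]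
        intro _
        exact (hholo _ (huA l')).2.1 p q
      · intro z hz
        refine (pi_norm_le_iff_of_nonneg hC0.le).2 fun _ => ?_
        exact (hC _ (huA l') z (hK's hz)).1.entry p q
    refine (MB.of_entry h1).mono ?_
    have e1 : (k : ℝ) * (C' * C * (K * s * (B + 1))) = Q * (K * s * (B + 1)) := by
      rw [hQ]; ring
    rw [e1]
    linarith
  have hls0 : 0 < ((l' : ℕ) : ℝ) * s := by
    have : (0 : ℝ) < ((l' : ℕ) : ℝ) := by
      exact_mod_cast Nat.succ_pos l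
    positivity
  have hl'K' : ((l' : ℕ) : ℝ) ≤ K := by exact_mod_cast (by omega : l' ≤ K)
  refine ⟨l' * s, hls0, ?_, u l', huA l', ?_, ?_⟩
  · have : (l' : ℝ) * s ≤ K * s := by gcongr
    linarith
  · intro z hz
    refine (key l' (by omega) z (ball_subset_ball hρρ₀ hz)).2.trans ?_
    calc (l' : ℝ) * s * κ ≤ l' * s * ε₀ := by
          apply mul_le_mul_of_nonneg_left _ hls0.le
          linarith
      _ = ε₀ * (l' * s) := by ring
  · have e1 : (u l').A z₀ - 1 = ((u l').A z₀ - (u l').A y) + ((u l').A y - 1) := by abel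
    rw [e1]
    exact (hmb2.add hmb1).mono (by linarith)

end Pool.Agent.Helper93.RK
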