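import Pool.Agent.Helper95.RK.GoalsC
import Pool.Agent.Helper95.RK.Basics
import Pool.Agent.Helper53.SP.RESC

/-! # Packet RK-RESCK: passage to small balls, for corank `k` -/

open Complex Metric Set Filter Topology MeasureTheory
open scoped ContDiff ComplexConjugate ComplexOrder Manifold Matrix

namespace Pool.Agent.Helper93.RK

open Pool.Agent.Helper95.Lin Pool.Agent.Helper16.Abund Pool.Agent.Helper92.Orb
open Pool.Agent.Helper10.SP Pool.Agent.Helper95.RK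
open Pool.Agent.Helper53.SP (Af Af_inv Af_inv' Af_sub Af_center norm_Af_sub dist_Af Af_mem_ball
  differentiable_Af hasFDerivAt_Af contDiff_Af eqOn_ball isOpen_Bd ball_sub_Bd Af_preimage_ball
  diagL diagL_apply det_diagL lev_congr)

universe u v

variable {b k : ℕ}

/-- Two maps of a pseudogroup on a ball which agree near a point agree. -/
theorem triK_eqOn_ball {t t' : TriK b k} {z₀ : Cn b} {r : ℝ} (ht : t.HolOn (ball z₀ r))
    (ht' : t'.HolOn (ball z₀ r)) {U : Set (Cn b)} (hU : IsOpen U) {y : Cn b} (hyU : y ∈ U)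
    (hy : y ∈ ball z₀ r) (h : t.EqOn t' U) : t.EqOn t' (ball z₀ r) := by
  have hN := hU.mem_nhds hyU
  have e1 : EqOn t.g t'.g (ball z₀ r) := eqOn_ball ht.1 ht'.1 hy
    (Filter.eventually_of_mem hN fun z hz => (h z hz).1)
  have e2 : ∀ i j, EqOn (fun z => t.A z i j) (fun z => t'.A z i j) (ball z₀ r) := fun i j =>
    eqOn_ball (ht.2.1 i j) (ht'.2.1 i j) hy
      (Filter.eventually_of_mem hN fun z hz => by
        change t.A z i j = t'.A z i j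
        rw [(h z hz).2.1])
  have e3 : EqOn t.β t'.β (ball z₀ r) := eqOn_ball ht.2.2 ht'.2.2 hy
    (Filter.eventually_of_mem hN fun z hz => (h z hz).2.2)
  exact fun z hz => ⟨e1 hz, by ext i j; exact e2 i j hz, e3 hz⟩

theorem Bd_mono' {N : ℕ} (c : Fin N → Cn b) {r s : ℝ} (hrs : r ≤ s) : Bd c r ⊆ Bd c s :=
  iUnion_mono fun _ => ball_subset_ball hrs

/-! ## Transfer of maps of the pseudogroups -/

/-- The data of the passage to small balls. -/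
structure ScK {b k N N' : ℕ} {M : Type*} (c : Fin N → Cn b) (c' p : Fin N' → Cn b) (ρ R' : ℝ)
    (κ : Cn b → Cn b) (E E' : Cn (b + k) → M) : Prop where
  ρpos : 0 < ρ
  R'pos : 0 < R'
  ρR : ρ * R' ≤ 1
  sep : ∀ i j, i ≠ j → 10 * R' ≤ ‖c' i - c' j‖
  pmem : ∀ j, p j ∈ ⋃ i, closedBall (c i) 1
  hκ : ∀ j, ∀ z ∈ ball (c' j) R', κ z = Af (p j) (c' j) ρ z
  hE : ∀ x, E' x = E (ptK (κ (base x)) (fib x))

namespace ScK

variable {N N' : ℕ} {M : Type*} {c : Fin N → Cn b} {c' p : Fin N' → Cn b} {ρ R' : ℝ}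
  {κ : Cn b → Cn b} {E E' : Cn (b + k) → M}

theorem disj (h : ScK c c' p ρ R' κ E E') {i j : Fin N'} {z : Cn b} (hi : z ∈ ball (c' i) R')
    (hj : z ∈ ball (c' j) R') : i = j := by
  by_contra hne
  have h1 := h.sep i j hne
  rw [← dist_eq_norm] at h1
  have h2 : dist (c' i) (c' j) ≤ dist z (c' i) + dist z (c' j) := by
    rw [dist_comm z (c' i)]
    exact dist_triangle _ _ _
  rw [mem_ball] at hi hj
  linarith [h.R'pos]

/-- A small ball about `p j` is over `Bd c 2`. -/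
theorem pball (h : ScK c c' p ρ R' κ E E') (j : Fin N') : ball (p j) (ρ * R') ⊆ Bd c 2 := by
  intro z hz
  obtain ⟨i, hi⟩ := mem_iUnion.1 (h.pmem j)
  refine mem_iUnion.2 ⟨i, ?_⟩
  rw [mem_ball] at hz ⊢
  rw [mem_closedBall] at hi
  have := dist_triangle z (p j) (c i)
  linarith [h.ρR]

/-- The map `t` in the coordinates of the small balls `j`, `l`. -/
noncomputable def up (p c' : Fin N' → Cn b) (ρ : ℝ) (j l : Fin N') (t : TriK b k) : TriK b k :=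
  ⟨fun z => Af (c' l) (p l) ρ⁻¹ (t.g (Af (p j) (c' j) ρ z)), fun z => t.A (Af (p j) (c' j) ρ z),
    fun z => t.β (Af (p j) (c' j) ρ z)⟩

/-- The inverse of `up`. -/
noncomputable def dn (p c' : Fin N' → Cn b) (ρ : ℝ) (j l : Fin N') (t : TriK b k) : TriK b k :=
  ⟨fun z => Af (p l) (c' l) ρ (t.g (Af (c' j) (p j) ρ⁻¹ z)),
    fun z => t.A (Af (c' j) (p j) ρ⁻¹ z), fun z => t.β (Af (c' j) (p j) ρ⁻¹ z)⟩

variable {G : Type*} [Group G] [MulAction G M]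

/-- New maps come from old ones. -/
theorem pmap_dn (h : ScK c c' p ρ R' κ E E') {U : Set (Cn b)} {t : TriK b k}
    (ht : PMapK (Bd c' R') (RelK (G := G) c' R' E') U t) {V : Set (Cn b)} (hV : IsOpen V)
    (hVU : V ⊆ U) {j l : Fin N'} (hVj : V ⊆ ball (c' j) R') (hVl : MapsTo t.g V (ball (c' l) R')) :
    PMapK (Bd c 5) (RelK (G := G) c 5 E) (Af (c' j) (p j) ρ⁻¹ ⁻¹' V) (dn p c' ρ j l t) := by
  obtain ⟨hUo, hUD, ⟨hg, ha, hβ⟩, hmem, γ, hγ⟩ := ht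
  have hρ := h.ρpos
  have hρ0 : ρ ≠ 0 := hρ.ne'
  have hAd := differentiable_Af (c' j) (p j) ρ⁻¹
  have hmaps : MapsTo (Af (c' j) (p j) ρ⁻¹) (Af (c' j) (p j) ρ⁻¹ ⁻¹' V) U := fun z hz => hVU hz
  have h5 : ∀ j, ball (p j) (ρ * R') ⊆ Bd c 5 := fun j =>
    (h.pball j).trans (Bd_mono' c (by norm_num))
  have hsrc : ∀ z ∈ Af (c' j) (p j) ρ⁻¹ ⁻¹' V, z ∈ Bd c 5 := by
    intro z hz
    apply h5 j
    have := (Af_mem_ball (p j) (c' j) hρ R' _).2 (hVj hz)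
    rwa [Af_inv' _ _ hρ0] at this
  have htgt : ∀ z ∈ Af (c' j) (p j) ρ⁻¹ ⁻¹' V, (dn p c' ρ j l t).g z ∈ Bd c 5 := by
    intro z hz
    apply h5 l
    exact (Af_mem_ball (p l) (c' l) hρ R' _).2 (hVl hz)
  refine ⟨hV.preimage hAd.continuous, hsrc, ⟨?_, fun i j =>
    (ha i j).comp hAd.differentiableOn hmaps,
    hβ.comp hAd.differentiableOn hmaps⟩, fun z hz => ⟨htgt z hz, (hmem _ (hVU hz)).2⟩, γ, ?_⟩
  · exact (differentiable_Af (p l) (c' l) ρ).comp_differentiableOn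
      (hg.comp hAd.differentiableOn hmaps)
  · intro z hz w
    refine ⟨?_, ?_, ?_⟩
    · change base (ptK z w) ∈ Bd c 5
      rw [base_ptK]
      exact hsrc z hz
    · change base (ptK _ _) ∈ Bd c 5
      rw [base_ptK]
      exact htgt z hz
    · have h1 := (hγ _ (hVU hz) w).2.2
      rw [h.hE, h.hE, base_ptK, base_ptK, fib_ptK, fib_ptK, h.hκ j _ (hVj hz), h.hκ l _ (hVl hz),
        Af_inv' _ _ hρ0] at h1
      exact h1

/-- Old maps give new ones. -/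
theorem pmap_up (h : ScK c c' p ρ R' κ E E') {U : Set (Cn b)} {t : TriK b k}
    (ht : PMapK (Bd c 5) (RelK (G := G) c 5 E) U t) {j l : Fin N'}
    (hVj : U ⊆ ball (p j) (ρ * R')) (hVl : MapsTo t.g U (ball (p l) (ρ * R'))) :
    PMapK (Bd c' R') (RelK (G := G) c' R' E') (Af (p j) (c' j) ρ ⁻¹' U) (up p c' ρ j l t) := by
  obtain ⟨hUo, hUD, ⟨hg, ha, hβ⟩, hmem, γ, hγ⟩ := ht
  have hρ := h.ρpos
  have hρ0 : ρ ≠ 0 := hρ.ne'
  have hAd := differentiable_Af (p j) (c' j) ρ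
  have hmaps : MapsTo (Af (p j) (c' j) ρ) (Af (p j) (c' j) ρ ⁻¹' U) U := fun z hz => hz
  have hsrc' : ∀ z ∈ Af (p j) (c' j) ρ ⁻¹' U, z ∈ ball (c' j) R' := fun z hz =>
    (Af_mem_ball (p j) (c' j) hρ R' z).1 (hVj hz)
  have hsrc : ∀ z ∈ Af (p j) (c' j) ρ ⁻¹' U, z ∈ Bd c' R' := fun z hz =>
    ball_sub_Bd c' R' j (hsrc' z hz)
  have htgt' : ∀ z ∈ Af (p j) (c' j) ρ ⁻¹' U, (up p c' ρ j l t).g z ∈ ball (c' l) R' := by
    intro z hz
    refine (Af_mem_ball (p l) (c' l) hρ R' _).1 ?_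
    change Af (p l) (c' l) ρ (Af (c' l) (p l) ρ⁻¹ _) ∈ _
    rw [Af_inv' _ _ hρ0]
    exact hVl hz
  have htgt : ∀ z ∈ Af (p j) (c' j) ρ ⁻¹' U, (up p c' ρ j l t).g z ∈ Bd c' R' := fun z hz =>
    ball_sub_Bd c' R' l (htgt' z hz)
  refine ⟨hUo.preimage hAd.continuous, hsrc, ⟨?_, fun i j =>
    (ha i j).comp hAd.differentiableOn hmaps,
    hβ.comp hAd.differentiableOn hmaps⟩, fun z hz => ⟨htgt z hz, (hmem _ hz).2⟩, γ, ?_⟩
  · exact (differentiable_Af (c' l) (p l) ρ⁻¹).comp_differentiableOn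
      (hg.comp hAd.differentiableOn hmaps)
  · intro z hz w
    refine ⟨?_, ?_, ?_⟩
    · change base (ptK z w) ∈ Bd c' R'
      rw [base_ptK]
      exact hsrc z hz
    · change base (ptK _ _) ∈ Bd c' R'
      rw [base_ptK]
      exact htgt z hz
    · have h1 := (hγ _ hz w).2.2
      rw [h.hE, h.hE, base_ptK, base_ptK, fib_ptK, fib_ptK, h.hκ j _ (hsrc' z hz),
        h.hκ l _ (htgt' z hz)]
      change _ = E (ptK (Af (p l) (c' l) ρ (Af (c' l) (p l) ρ⁻¹ _)) _)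
      rw [Af_inv' _ _ hρ0]
      exact h1

/-- A map on a ball has values in one ball. -/
theorem one_ball (h : ScK c c' p ρ R' κ E E') {t : TriK b k} {z₀ : Cn b} {r : ℝ} (hr : 0 < r)
    (ht : PMapK (Bd c' R') (RelK (G := G) c' R' E') (ball z₀ r) t) :
    ∃ l, MapsTo t.g (ball z₀ r) (ball (c' l) R') := by
  obtain ⟨l, hl⟩ := mem_iUnion.1 (ht.2.2.2.1 z₀ (mem_ball_self hr)).1
  refine ⟨l, mapsTo_iff_image_subset.2 ?_⟩
  refine IsPreconnected.subset_left_of_subset_union (v := ⋃ i : {i // i ≠ l}, ball (c' i) R')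
    isOpen_ball (isOpen_iUnion fun _ => isOpen_ball) ?_ ?_ ⟨t.g z₀, ⟨z₀, mem_ball_self hr, rfl⟩, hl⟩ ?_
  · rw [Set.disjoint_left]
    intro z hz hz'
    obtain ⟨⟨i, hi⟩, hz''⟩ := mem_iUnion.1 hz'
    exact hi (h.disj hz'' hz)
  · rintro _ ⟨z, hz, rfl⟩
    obtain ⟨i, hi⟩ := mem_iUnion.1 (ht.2.2.2.1 z hz).1
    by_cases hil : i = l
    · subst hil
      exact Or.inl hi
    · exact Or.inr (mem_iUnion.2 ⟨⟨i, hil⟩, hi⟩)
  · exact (convex_ball z₀ r).isPreconnected.image _ ht.2.2.1.1.continuousOn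

/-- Estimates for the maps on the new balls. -/
theorem big_key (h : ScK c c' p ρ R' κ E E') {δ C : ℝ}
    (hX : Ext5K c (PMapK (Bd c 5) (RelK (G := G) c 5 E)) δ C) (hδ : 8 * ρ ≤ δ) (hR : 4 ≤ R')
    {j : Fin N'} {t : TriK b k} (ht : PMapK (Bd c' R') (RelK (G := G) c' R' E') (ball (c' j) 4) t)
    {x y : Cn b} (hx : x ∈ ball (c' j) 4) (hy : y ∈ ball (c' j) 4) :
    ‖t.g x - t.g y‖ ≤ C * ‖x - y‖ ∧ (MB (t.A x) C ∧ MB (t.A x)⁻¹ C) ∧
      ‖t.β x‖ ≤ C * (1 + ‖t.β y‖) := by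
  have hρ := h.ρpos
  have hρ0 : ρ ≠ 0 := hρ.ne'
  obtain ⟨l, hl⟩ := h.one_ball (by norm_num) ht
  have h4 : ball (c' j) 4 ⊆ ball (c' j) R' := ball_subset_ball hR
  have ht0 := h.pmap_dn ht isOpen_ball Subset.rfl h4 hl
  rw [Af_preimage_ball _ _ hρ] at ht0
  set t₀ := dn p c' ρ j l t with ht₀
  set x₀ := Af (p j) (c' j) ρ x with hx₀
  set y₀ := Af (p j) (c' j) ρ y with hy₀
  have hx₀m : x₀ ∈ ball (p j) (ρ * 4) := (Af_mem_ball _ _ hρ _ _).2 hx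
  have hy₀m : y₀ ∈ ball (p j) (ρ * 4) := (Af_mem_ball _ _ hρ _ _).2 hy
  have hgx : t₀.g x₀ = Af (p l) (c' l) ρ (t.g x) := by
    change Af (p l) (c' l) ρ (t.g (Af (c' j) (p j) ρ⁻¹ (Af (p j) (c' j) ρ x))) = _
    rw [Af_inv _ _ hρ0]
  have hgy : t₀.g y₀ = Af (p l) (c' l) ρ (t.g y) := by
    change Af (p l) (c' l) ρ (t.g (Af (c' j) (p j) ρ⁻¹ (Af (p j) (c' j) ρ y))) = _
    rw [Af_inv _ _ hρ0]
  have hax : t₀.A x₀ = t.A x := by
    change t.A (Af (c' j) (p j) ρ⁻¹ (Af (p j) (c' j) ρ x)) = _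
    rw [Af_inv _ _ hρ0]
  have hβx : t₀.β x₀ = t.β x := by
    change t.β (Af (c' j) (p j) ρ⁻¹ (Af (p j) (c' j) ρ x)) = _
    rw [Af_inv _ _ hρ0]
  have hβy : t₀.β y₀ = t.β y := by
    change t.β (Af (c' j) (p j) ρ⁻¹ (Af (p j) (c' j) ρ y)) = _
    rw [Af_inv _ _ hρ0]
  have h23 : Bd c 2 ⊆ Bd c 3 := Bd_mono' c (by norm_num)
  have hy3 : y₀ ∈ Bd c 3 := h23 (h.pball j (ball_subset_ball (by nlinarith) hy₀m))
  have hgy3 : t₀.g y₀ ∈ Bd c 3 := by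
    rw [hgy]
    exact h23 (h.pball l ((Af_mem_ball _ _ hρ _ _).2 (hl hy)))
  obtain ⟨t₁, U₁, ht1, hU1, hyU1, hU1s, heq, hb, hlip⟩ := hX.2.2 y₀ hy3 _ t₀ ht0 hy₀m hgy3
  have hsub : ball (p j) (ρ * 4) ⊆ ball y₀ δ := by
    intro z hz
    rw [mem_ball] at hz hy₀m ⊢
    rw [dist_comm] at hy₀m
    linarith [dist_triangle z (p j) y₀]
  have hall : t₁.EqOn t₀ (ball (p j) (ρ * 4)) := by
    refine triK_eqOn_ball ⟨ht1.2.2.1.1.mono hsub, fun i j => (ht1.2.2.1.2.1 i j).mono hsub,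
      ht1.2.2.1.2.2.mono hsub⟩ ht0.2.2.1 hU1 hyU1 hy₀m heq
  have ex := hall x₀ hx₀m
  have ey := hall y₀ hy₀m
  obtain ⟨-, b1, b2, b3⟩ := hb x₀ (hsub hx₀m)
  have b4 := hlip x₀ (hsub hx₀m) y₀ (hsub hy₀m)
  rw [ex.2.1, hax] at b1 b2
  rw [ex.2.2, ey.2.2, hβx, hβy] at b3
  rw [ex.1, ey.1, hgx, hgy, norm_Af_sub _ _ hρ, hx₀, hy₀, norm_Af_sub _ _ hρ] at b4
  refine ⟨?_, ⟨b1, b2⟩, b3⟩
  have b5 : ρ * ‖t.g x - t.g y‖ ≤ ρ * (C * ‖x - y‖) := by
    calc ρ * ‖t.g x - t.g y‖ ≤ C * (ρ * ‖x - y‖) := b4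
      _ = ρ * (C * ‖x - y‖) := by ring
  exact le_of_mul_le_mul_left b5 hρ

/-- Germs extend to the new balls. -/
theorem ext_new (h : ScK c c' p ρ R' κ E E') {δ C : ℝ}
    (hX : Ext5K c (PMapK (Bd c 5) (RelK (G := G) c 5 E)) δ C) (hδ : 8 * ρ ≤ δ)
    (hR : 8 + 8 * C ≤ R') {j : Fin N'} {z : Cn b} (hz : z ∈ ball (c' j) 2) {U : Set (Cn b)}
    {t : TriK b k} (ht : PMapK (Bd c' R') (RelK (G := G) c' R' E') U t) (hzU : z ∈ U)
    (htz : t.g z ∈ Bd c' 2) :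
    ∃ t' U', PMapK (Bd c' R') (RelK (G := G) c' R' E') (ball (c' j) 4) t' ∧ IsOpen U' ∧ z ∈ U' ∧
      U' ⊆ U ∧ t'.EqOn t U' := by
  have hρ := h.ρpos
  have hρ0 : ρ ≠ 0 := hρ.ne'
  have hC : 1 ≤ C := hX.2.1
  obtain ⟨l, hl⟩ := mem_iUnion.1 htz
  have hUo : IsOpen U := ht.1
  set V : Set (Cn b) := (U ∩ t.g ⁻¹' ball (c' l) R') ∩ ball (c' j) R' with hV
  have hVo : IsOpen V := (ht.2.2.1.1.continuousOn.isOpen_inter_preimage hUo isOpen_ball).inter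
    isOpen_ball
  have hVU : V ⊆ U := fun x hx => hx.1.1
  have hVj : V ⊆ ball (c' j) R' := fun x hx => hx.2
  have hVl : MapsTo t.g V (ball (c' l) R') := fun x hx => hx.1.2
  have hzV : z ∈ V := ⟨⟨hzU, ball_subset_ball (by linarith) hl⟩, ball_subset_ball (by linarith) hz⟩
  have ht0 := h.pmap_dn ht hVo hVU hVj hVl
  set t₀ := dn p c' ρ j l t with ht₀
  set z₀ := Af (p j) (c' j) ρ z with hz₀
  have hz₀m : z₀ ∈ ball (p j) (ρ * 2) := (Af_mem_ball _ _ hρ _ _).2 hz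
  have hgz : t₀.g z₀ = Af (p l) (c' l) ρ (t.g z) := by
    change Af (p l) (c' l) ρ (t.g (Af (c' j) (p j) ρ⁻¹ (Af (p j) (c' j) ρ z))) = _
    rw [Af_inv _ _ hρ0]
  have hgzm : t₀.g z₀ ∈ ball (p l) (ρ * 2) := by
    rw [hgz]
    exact (Af_mem_ball _ _ hρ _ _).2 hl
  have h23 : Bd c 2 ⊆ Bd c 3 := Bd_mono' c (by norm_num)
  have hz3 : z₀ ∈ Bd c 3 := h23 (h.pball j (ball_subset_ball (by nlinarith) hz₀m))
  have hgz3 : t₀.g z₀ ∈ Bd c 3 := h23 (h.pball l (ball_subset_ball (by nlinarith) hgzm))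
  have hz₀V : z₀ ∈ Af (c' j) (p j) ρ⁻¹ ⁻¹' V := by
    change Af (c' j) (p j) ρ⁻¹ (Af (p j) (c' j) ρ z) ∈ V
    rw [Af_inv _ _ hρ0]
    exact hzV
  obtain ⟨t₁, U₁, ht1, hU1, hzU1, hU1s, heq, hb, hlip⟩ := hX.2.2 z₀ hz3 _ t₀ ht0 hz₀V hgz3
  have hsub : ball (p j) (ρ * 4) ⊆ ball z₀ (ρ * 6) := by
    intro x hx
    rw [mem_ball] at hx hz₀m ⊢
    rw [dist_comm] at hz₀m
    linarith [dist_triangle x (p j) z₀]
  have hsub' : ball (p j) (ρ * 4) ⊆ ball z₀ δ :=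
    hsub.trans (ball_subset_ball (by linarith))
  have hself : z₀ ∈ ball z₀ δ := mem_ball_self hX.1
  have hm1 : PMapK (Bd c 5) (RelK (G := G) c 5 E) (ball (p j) (ρ * 4)) t₁ := by
    obtain ⟨a1, a2, ⟨a3, a4, a5⟩, a6, γ, a7⟩ := ht1
    exact ⟨isOpen_ball, hsub'.trans a2, ⟨a3.mono hsub', fun i j => (a4 i j).mono hsub',
      a5.mono hsub'⟩, fun x hx => a6 x (hsub' hx), γ, fun x hx => a7 x (hsub' hx)⟩
  have hmt : MapsTo t₁.g (ball (p j) (ρ * 4)) (ball (p l) (ρ * R')) := by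
    intro x hx
    have h1 := hlip x (hsub' hx) z₀ hself
    have h2 := hsub hx
    rw [mem_ball, dist_eq_norm] at h2
    have h3 : ‖t₁.g x - t₁.g z₀‖ ≤ C * (ρ * 6) :=
      h1.trans (mul_le_mul_of_nonneg_left h2.le (by linarith))
    rw [(heq z₀ hzU1).1] at h3
    rw [mem_ball, dist_eq_norm] at hgzm ⊢
    have h4 : ‖t₁.g x - p l‖ ≤ ‖t₁.g x - t₀.g z₀‖ + ‖t₀.g z₀ - p l‖ :=
      norm_sub_le_norm_sub_add_norm_sub _ _ _
    nlinarith
  have hup := h.pmap_up hm1 (ball_subset_ball (by nlinarith)) hmt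
  have hpre : Af (p j) (c' j) ρ ⁻¹' ball (p j) (ρ * 4) = ball (c' j) 4 := by
    ext x
    exact Af_mem_ball _ _ hρ _ _
  rw [hpre] at hup
  have hAd := differentiable_Af (p j) (c' j) ρ
  refine ⟨up p c' ρ j l t₁, Af (p j) (c' j) ρ ⁻¹' U₁, hup, hU1.preimage hAd.continuous, hzU1, ?_, ?_⟩
  · intro x hx
    have := hU1s hx
    change Af (c' j) (p j) ρ⁻¹ (Af (p j) (c' j) ρ x) ∈ V at this
    rw [Af_inv _ _ hρ0] at this
    exact hVU this
  · intro x hx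
    have e := heq _ hx
    refine ⟨?_, ?_, ?_⟩
    · change Af (c' l) (p l) ρ⁻¹ (t₁.g (Af (p j) (c' j) ρ x)) = _
      rw [e.1]
      change Af (c' l) (p l) ρ⁻¹ (Af (p l) (c' l) ρ (t.g (Af (c' j) (p j) ρ⁻¹
        (Af (p j) (c' j) ρ x)))) = _
      rw [Af_inv _ _ hρ0, Af_inv _ _ hρ0]
    · change t₁.A (Af (p j) (c' j) ρ x) = _
      rw [e.2.1]
      change t.A (Af (c' j) (p j) ρ⁻¹ (Af (p j) (c' j) ρ x)) = _
      rw [Af_inv _ _ hρ0]
    · change t₁.β (Af (p j) (c' j) ρ x) = _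
      rw [e.2.2]
      change t.β (Af (c' j) (p j) ρ⁻¹ (Af (p j) (c' j) ρ x)) = _
      rw [Af_inv _ _ hρ0]

/-- The extension theorem for the new leaf map. -/
theorem bigExt (h : ScK c c' p ρ R' κ E E') {δ C : ℝ}
    (hX : Ext5K c (PMapK (Bd c 5) (RelK (G := G) c 5 E)) δ C) (hδ : 8 * ρ ≤ δ)
    (hR : 8 + 8 * C ≤ R') : BigExtK c' R' (PMapK (Bd c' R') (RelK (G := G) c' R' E')) C := by
  have hC : 1 ≤ C := hX.2.1
  have h4 : (4 : ℝ) ≤ R' := by linarith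
  exact ⟨hC, hR, fun j z hz U t ht hzU htz => h.ext_new hX hδ hR hz ht hzU htz,
    fun j t ht x hx y hy => (h.big_key hX hδ h4 ht.1 hx hy).1,
    fun j t ht x hx => (h.big_key hX hδ h4 ht.1 hx hx).2.1,
    fun j t ht x hx y hy => (h.big_key hX hδ h4 ht.1 hx hy).2.2⟩

end ScK

/-! ## The rescaling of `ℂᵇ × ℂᵏ` -/

/-- The rescaling of the base coordinates. -/
noncomputable def scLK (b k : ℕ) (ρ : ℝ) : Cn (b + k) →L[ℂ] Cn (b + k) :=
  diagL (ptK (fun _ : Fin b => (ρ : ℂ)) (fun _ : Fin k => 1))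

theorem det_scLK (ρ : ℝ) : (scLK b k ρ).det = (ρ : ℂ) ^ b := by
  rw [scLK, det_diagL, Fin.prod_univ_add]
  simp [ptK_castAdd, ptK_natAdd]

theorem scLK_eq (p q : Cn b) (ρ : ℝ) (x : Cn (b + k)) :
    ptK (Af p q ρ (base x)) (fib x) = scLK b k ρ x + ptK (p - (ρ : ℂ) • q) 0 := by
  funext j
  refine Fin.addCases (fun i => ?_) (fun i => ?_) j
  · simp only [scLK, Pi.add_apply, diagL_apply]
    simp only [ptK_castAdd]
    simp [Af, base]
    ring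
  · simp only [scLK, Pi.add_apply, diagL_apply]
    simp only [ptK_natAdd]
    simp [fib]

theorem scLK_ef (ρ : ℝ) (i : Fin k) : scLK b k ρ (ef b i) = ef b i := by
  funext j
  refine Fin.addCases (fun a => ?_) (fun a => ?_) j
  · rw [scLK, diagL_apply, ptK_castAdd]
    have h := congrFun (base_ef (b := b) i) a
    change ef b i (Fin.castAdd k a) = 0 at h
    rw [h, mul_zero]
  · rw [scLK, diagL_apply, ptK_natAdd, one_mul]

theorem hasFDerivAt_scK (p q : Cn b) (ρ : ℝ) (x : Cn (b + k)) :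
    HasFDerivAt (fun x : Cn (b + k) => ptK (Af p q ρ (base x)) (fib x)) (scLK b k ρ) x := by
  have h : (fun x : Cn (b + k) => ptK (Af p q ρ (base x)) (fib x)) =
      fun x => scLK b k ρ x + ptK (p - (ρ : ℂ) • q) 0 := funext fun x => scLK_eq p q ρ x
  rw [h]
  exact (scLK b k ρ).hasFDerivAt.add_const _

theorem hermi_single {n : ℕ} (A : Matrix (Fin n) (Fin n) ℂ) (i j : Fin n) :
    hermi A (Pi.single i 1) (Pi.single j 1) = A i j := by
  unfold hermi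
  rw [Finset.sum_eq_single i, Finset.sum_eq_single j]
  · simp
  · intro l _ hl
    simp [hl]
  · intro h
    exact absurd (Finset.mem_univ _) h
  · intro l _ hl
    refine Finset.sum_eq_zero fun m _ => ?_
    simp [hl]
  · intro h
    exact absurd (Finset.mem_univ _) h

namespace ScK

variable {N N' : ℕ} {M : Type v} [TopologicalSpace M] [T2Space M]
  [ChartedSpace (Fin (b + k) → ℂ) M] [IsManifold 𝓘(ℂ, Fin (b + k) → ℂ) ω M]
  {c : Fin N → Cn b} {c' p : Fin N' → Cn b} {ρ R' : ℝ}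
  {κ : Cn b → Cn b} {E E' : Cn (b + k) → M} {G : Type u} [Group G] [MulAction G M]
  {h q : M → Matrix (Fin (b + k)) (Fin (b + k)) ℂ} {v : M → ℝ}

omit [TopologicalSpace M] [T2Space M] [ChartedSpace (Fin (b + k) → ℂ) M]
  [IsManifold 𝓘(ℂ, Fin (b + k) → ℂ) ω M] in
theorem κ_eq (h : ScK c c' p ρ R' κ E E') {j : Fin N'} {z : Cn b} (hz : z ∈ ball (c' j) R') :
    κ =ᶠ[𝓝 z] Af (p j) (c' j) ρ :=
  Filter.eventually_of_mem (isOpen_ball.mem_nhds hz) fun y hy => h.hκ j y hy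

/-- The new leaf map. -/
theorem lmap (hPARB : S_PARBK.{u, v}) (hPMB : S_PMB.{u, v}) (hWCH : S_WCH)
    (hD : DataK b k G M h v) (hF : FlatFol b k G M q v) {Φ : Cn b → ℝ}
    {Hf : Cn b → Matrix (Fin k) (Fin k) ℂ}
    (hL : LMapK G v q c 5 E Φ Hf) (hS : ScK c c' p ρ R' κ E E') (hN : 0 < N') (hR : 1 < R')
    (hcov : (⋃ i, closedBall (c i) 1) ⊆ ⋃ j, ball (p j) ρ) :
    LMapK G v q c' R' E' (fun z => Φ (κ z) + Real.log (‖(ρ : ℂ) ^ b‖ ^ 2))
      (fun z => Hf (κ z)) := by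
  have hρ := hS.ρpos
  have hρ0 : ρ ≠ 0 := hρ.ne'
  have hρc : (ρ : ℂ) ≠ 0 := by exact_mod_cast hρ0
  have hE' : E' = E ∘ fun x => ptK (κ (base x)) (fib x) := funext hS.hE
  have h25 : Bd c 2 ⊆ Bd c 5 := Bd_mono' c (by norm_num)
  -- the change of coordinates
  have hloc : ∀ x ∈ tubeK k (Bd c' R'), ∃ j, base x ∈ ball (c' j) R' ∧
      HasFDerivAt (fun x : Cn (b + k) => ptK (κ (base x)) (fib x)) (scLK b k ρ) x := by
    intro x hx
    obtain ⟨j, hj⟩ := mem_iUnion.1 (show base x ∈ Bd c' R' from hx)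
    refine ⟨j, hj, ?_⟩
    refine (hasFDerivAt_scK (p j) (c' j) ρ x).congr_of_eventuallyEq ?_
    have h1 : ∀ᶠ y in 𝓝 x, base y ∈ ball (c' j) R' :=
      (bsL b k).continuous.continuousAt.eventually_mem (isOpen_ball.mem_nhds hj)
    exact h1.mono fun y hy => by
      change ptK (κ (base y)) (fib y) = ptK (Af (p j) (c' j) ρ (base y)) (fib y)
      rw [hS.hκ j _ hy]
  have hmapκ : ∀ z ∈ Bd c' R', κ z ∈ Bd c 5 := by
    intro z hz
    obtain ⟨j, hj⟩ := mem_iUnion.1 hz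
    rw [hS.hκ j z hj]
    exact h25 (hS.pball j ((Af_mem_ball _ _ hρ _ _).2 hj))
  have hmaps : MapsTo (fun x : Cn (b + k) => ptK (κ (base x)) (fib x)) (tubeK k (Bd c' R'))
      (tubeK k (Bd c 5)) := by
    intro x hx
    change base (ptK _ _) ∈ Bd c 5
    rw [base_ptK]
    exact hmapκ _ hx
  have hdet : ∀ x ∈ tubeK k (Bd c' R'),
      (fderiv ℂ (fun x : Cn (b + k) => ptK (κ (base x)) (fib x)) x).det = (ρ : ℂ) ^ b := by
    intro x hx
    obtain ⟨j, -, hj⟩ := hloc x hx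
    rw [hj.fderiv, det_scLK]
  have hdiff : DifferentiableOn ℂ (fun x : Cn (b + k) => ptK (κ (base x)) (fib x))
      (tubeK k (Bd c' R')) := fun x hx => by
    obtain ⟨j, -, hj⟩ := hloc x hx
    exact hj.differentiableAt.differentiableWithinAt
  have hdet0 : ∀ x ∈ tubeK k (Bd c' R'),
      (fderiv ℂ (fun x : Cn (b + k) => ptK (κ (base x)) (fib x)) x).det ≠ 0 := fun x hx => by
    rw [hdet x hx]
    exact pow_ne_zero _ hρc
  obtain ⟨hP, -⟩ := hPARB hD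
  obtain ⟨hpar, hpot⟩ := hP (tubeK k (Bd c 5)) (tubeK k (Bd c' R')) E
    (fun x : Cn (b + k) => ptK (κ (base x)) (fib x)) hL.par (isOpen_tubeK (isOpen_Bd c' R'))
    hdiff hmaps hdet0
  have hpm := (hPMB hD q hF.herm hF.inv).2 (tubeK k (Bd c 5)) (tubeK k (Bd c' R')) E
    (fun x : Cn (b + k) => ptK (κ (base x)) (fib x)) hL.par (isOpen_tubeK (isOpen_Bd c' R'))
    hdiff hmaps hdet0
  rw [← hE'] at hpar hpot hpm
  refine ⟨hN, hR, hS.sep, hpar, ?_, ?_, ?_, ?_, ?_, ?_, ?_⟩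
  · intro z hz
    obtain ⟨j, hj⟩ := mem_iUnion.1 hz
    have h1 : ContDiffAt ℝ ∞ (Φ ∘ Af (p j) (c' j) ρ) z := by
      refine ContDiffAt.comp z ?_ (contDiff_Af (p j) (c' j) ρ).contDiffAt
      exact hL.smooth.contDiffAt ((isOpen_Bd c 5).mem_nhds
        (h25 (hS.pball j ((Af_mem_ball _ _ hρ _ _).2 hj))))
    have h2 : (Φ ∘ κ) =ᶠ[𝓝 z] Φ ∘ Af (p j) (c' j) ρ := (hS.κ_eq hj).fun_comp Φ
    exact ((h1.congr_of_eventuallyEq h2).add contDiffAt_const).contDiffWithinAt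
  · intro z hz e he
    obtain ⟨j, hj⟩ := mem_iUnion.1 hz
    have h2 : (fun z => Φ (κ z) + Real.log (‖(ρ : ℂ) ^ b‖ ^ 2)) =ᶠ[𝓝 z]
        fun y => (Φ ∘ Af (p j) (c' j) ρ) y + Real.log (‖(ρ : ℂ) ^ b‖ ^ 2) :=
      (hS.κ_eq hj).mono fun y hy => by simp only [hy, Function.comp]
    rw [lev_congr h2]
    have hmem : MapsTo (Af (p j) (c' j) ρ) (ball (c' j) R') (Bd c 5) := fun y hy =>
      h25 (hS.pball j ((Af_mem_ball _ _ hρ _ _).2 hy))
    have h3 := ((hWCH.1 (Bd c 5) (ball (c' j) R') (isOpen_Bd c 5) isOpen_ball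
      (Af (p j) (c' j) ρ) (differentiable_Af _ _ _).differentiableOn hmem).2 Φ hL.smooth z hj).1 e
    rw [h3, (hasFDerivAt_Af (p j) (c' j) ρ z).fderiv]
    refine hL.pos _ (hmem hj) _ ?_
    simp only [smul_apply, ContinuousLinearMap.id_apply]
    exact smul_ne_zero hρc he
  · intro x hx
    rw [(hpot x hx).2, hdet x hx, hL.pot _ (hmaps hx), base_ptK]
  · intro i i' z hz
    obtain ⟨j, hj⟩ := mem_iUnion.1 hz
    have h1 : ContDiffAt ℝ ∞ ((fun z => Hf z i i') ∘ Af (p j) (c' j) ρ) z := by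
      refine ContDiffAt.comp z ?_ (contDiff_Af (p j) (c' j) ρ).contDiffAt
      exact (hL.smH i i').contDiffAt ((isOpen_Bd c 5).mem_nhds
        (h25 (hS.pball j ((Af_mem_ball _ _ hρ _ _).2 hj))))
    have h2 : ((fun z => Hf z i i') ∘ κ) =ᶠ[𝓝 z] (fun z => Hf z i i') ∘ Af (p j) (c' j) ρ :=
      (hS.κ_eq hj).fun_comp _
    exact (h1.congr_of_eventuallyEq h2).contDiffWithinAt
  · intro z hz
    exact hL.posH _ (hmapκ z hz)
  · intro x hx
    obtain ⟨j, -, hj⟩ := hloc x hx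
    ext i l
    have h1 := hpm x hx (ef b i) (ef b l)
    rw [hj.fderiv, scLK_ef, scLK_ef] at h1
    unfold ef at h1
    rw [hermi_single, hermi_single] at h1
    have h2 := congrFun (congrFun (hL.leaf _ (hmaps hx)) i) l
    rw [base_ptK] at h2
    change pm (b + k) q E' x (Fin.natAdd b i) (Fin.natAdd b l) = _
    rw [h1]
    exact h2
  · intro q'
    obtain ⟨γ, z, hz, w, hw, hq⟩ := hL.cov q'
    have hz' : z ∈ ⋃ i, closedBall (c i) 1 := by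
      obtain ⟨i, hi⟩ := mem_iUnion.1 hz
      exact mem_iUnion.2 ⟨i, ball_subset_closedBall hi⟩
    obtain ⟨j, hj⟩ := mem_iUnion.1 (hcov hz')
    have h1 : Af (c' j) (p j) ρ⁻¹ z ∈ ball (c' j) 1 := by
      have := (Af_mem_ball (c' j) (p j) (inv_pos.2 hρ) ρ z).2 hj
      rwa [inv_mul_cancel₀ hρ0] at this
    refine ⟨γ, Af (c' j) (p j) ρ⁻¹ z, ball_sub_Bd c' 1 j h1, w, hw, ?_⟩
    rw [hS.hE, base_ptK, fib_ptK, hS.hκ j _ (ball_subset_ball hR.le h1), Af_inv' _ _ hρ0]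
    exact hq

end ScK

/-- RESCK. -/
theorem resck (hPARB : S_PARBK.{u, v}) (hPMB : S_PMB.{u, v}) (hWCH : S_WCH) :
    S_RESCK.{u, v} := by
  intro b k N G M _ _ _ _ _ _ h q v hb hD hF c E Φ Hf hL δ C hX
  have hδ : 0 < δ := hX.1
  have hC : 1 ≤ C := hX.2.1
  set R' : ℝ := 8 + 8 * C with hR'
  have hR'pos : 0 < R' := by linarith
  set ρ : ℝ := min (δ / 16) (1 / R') with hρdef
  have hρ : 0 < ρ := lt_min (by positivity) (by positivity)
  have hρδ : 8 * ρ ≤ δ := by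
    have : ρ ≤ δ / 16 := min_le_left _ _
    linarith
  have hρR : ρ * R' ≤ 1 := by
    have : ρ ≤ 1 / R' := min_le_right _ _
    calc ρ * R' ≤ 1 / R' * R' := mul_le_mul_of_nonneg_right this hR'pos.le
      _ = 1 := by field_simp
  -- the cover
  have hK : IsCompact (⋃ i, closedBall (c i) 1) := isCompact_iUnion fun i => isCompact_closedBall _ _
  obtain ⟨T, hTs, hTf, hTc⟩ := hK.finite_cover_balls hρ
  have hTne : T.Nonempty := by
    have h0 : c ⟨0, hL.posN⟩ ∈ ⋃ i, closedBall (c i) 1 :=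
      mem_iUnion.2 ⟨_, mem_closedBall_self zero_le_one⟩
    obtain ⟨x, hx, -⟩ := mem_iUnion₂.1 (hTc h0)
    exact ⟨x, hx⟩
  set F := hTf.toFinset with hFdef
  set N' := F.card with hN'
  let e := F.equivFin
  let p : Fin N' → Cn b := fun j => (e.symm j : Cn b)
  have hp : ∀ j, p j ∈ T := fun j => by
    exact hTf.mem_toFinset.1 (e.symm j).2
  have hpc : ∀ x ∈ T, ∃ j, p j = x := fun x hx => by
    have hxF : x ∈ F := by rwa [hFdef, Set.Finite.mem_toFinset]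
    exact ⟨e ⟨x, hxF⟩, by simp [p]⟩
  have hNpos : 0 < N' := by
    obtain ⟨x, hx⟩ := hTne
    obtain ⟨j, -⟩ := hpc x hx
    exact j.pos
  let c' : Fin N' → Cn b := fun j => Pi.single ⟨0, hb⟩ ((20 * R' * (j : ℕ) : ℝ) : ℂ)
  have hsep : ∀ i j, i ≠ j → 10 * R' ≤ ‖c' i - c' j‖ := by
    intro i j hij
    have h1 : c' i - c' j = Pi.single ⟨0, hb⟩ (((20 * R' * ((i : ℕ) - (j : ℕ) : ℝ)) : ℝ) : ℂ) := by
      simp only [c']
      rw [← Pi.single_sub]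
      congr 1
      push_cast
      ring
    rw [h1, Pi.norm_single, Complex.norm_real, Real.norm_eq_abs, abs_mul,
      abs_of_pos (by positivity : (0 : ℝ) < 20 * R')]
    have h2 : (1 : ℝ) ≤ |((i : ℕ) : ℝ) - ((j : ℕ) : ℝ)| := by
      have h3 : ((i : ℕ) : ℤ) - ((j : ℕ) : ℤ) ≠ 0 := by
        intro h4
        apply hij
        apply Fin.ext
        omega
      have h5 := Int.one_le_abs h3
      exact_mod_cast h5
    nlinarith
  have hdis : ∀ i j, ∀ z, z ∈ ball (c' i) R' → z ∈ ball (c' j) R' → i = j := by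
    intro i j z hi hj
    by_contra hne
    have h1 := hsep i j hne
    rw [← dist_eq_norm] at h1
    have h2 : dist (c' i) (c' j) ≤ dist z (c' i) + dist z (c' j) := by
      rw [dist_comm z (c' i)]
      exact dist_triangle _ _ _
    rw [mem_ball] at hi hj
    linarith
  classical
  let κ : Cn b → Cn b := fun z =>
    if hz : ∃ j, z ∈ ball (c' j) R' then Af (p hz.choose) (c' hz.choose) ρ z else z
  have hκ : ∀ j, ∀ z ∈ ball (c' j) R', κ z = Af (p j) (c' j) ρ z := by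
    intro j z hz
    have hex : ∃ j, z ∈ ball (c' j) R' := ⟨j, hz⟩
    have h1 : hex.choose = j := hdis _ _ z hex.choose_spec hz
    simp only [κ, dif_pos hex]
    rw [h1]
  let E' : Cn (b + k) → M := fun x => E (ptK (κ (base x)) (fib x))
  have hS : ScK c c' p ρ R' κ E E' :=
    ⟨hρ, hR'pos, hρR, hsep, fun j => hTs (hp j), hκ, fun _ => rfl⟩
  have hcov : (⋃ i, closedBall (c i) 1) ⊆ ⋃ j, ball (p j) ρ := by
    intro z hz
    obtain ⟨x, hx, hzx⟩ := mem_iUnion₂.1 (hTc hz)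
    obtain ⟨j, hj⟩ := hpc x hx
    exact mem_iUnion.2 ⟨j, by rw [hj]; exact hzx⟩
  exact ⟨N', c', R', C, E', _, _, hS.lmap hPARB hPMB hWCH hD hF hL hNpos (by linarith) hcov,
    hS.bigExt hX hρδ le_rfl⟩

end Pool.Agent.Helper93.RK
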