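import Pool.Agent.Helper40.RK.GoalsE
import Pool.Agent.Helper95.RK.Basics
import Pool.Agent.Helper74.SP.RETN

/-!
# RETNK: returns near the identity
-/

open Complex Metric Set Filter Topology MeasureTheory Matrix
open scoped ContDiff ComplexConjugate

namespace Pool.Agent.Helper93.RK

open Pool.Agent.Helper95.Lin Pool.Agent.Helper10.SP Pool.Agent.Helper95.RK Pool.Agent.Helper36.RK
open Pool.Agent.Helper40.RK
open Pool.Agent.Helper74.SP (idB cauchyB lipB)

theorem retnk (hNCV : S_NCVK) (hNET : S_NETK) : S_RETNK := by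
  intro b k N c R P Φ Hf C hA i ε hε
  have hC : 1 ≤ C := hA.Cge
  have hC0 : 0 < C := by linarith
  have hk1 : (1 : ℝ) ≤ (k : ℝ) + 1 := by
    have : (0 : ℝ) ≤ (k : ℝ) := Nat.cast_nonneg k
    linarith
  have hk0 : (0 : ℝ) ≤ (k : ℝ) := Nat.cast_nonneg k
  obtain ⟨η₀, hη₀, hncv⟩ := hNCV c R P Φ Hf C hA i (c i) (1 / C) (by positivity)
    (ball_subset_ball (by rw [div_le_iff₀ hC0]; linarith)) 3 (by norm_num) ε hε
  set A : Set (TriK b k) := {s | BigK c P i s ∧ s.g (c i) ∈ Bd c 1} with hAdef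
  set T : ℝ := ((k : ℝ) + 1) * C ^ 2 with hT
  have hTpos : 0 < T := by positivity
  have hCT : C ≤ T := by
    rw [hT]
    nlinarith [mul_le_mul hk1 hC (by norm_num) (by positivity)]
  obtain ⟨η, hη, hη1, hη2, hη3⟩ : ∃ η : ℝ, 0 < η ∧ η < 1 ∧ C * η < 2 ∧ T * η ≤ η₀ := by
    refine ⟨min (1 / (2 * C)) (η₀ / T), lt_min (by positivity) (by positivity), ?_, ?_, ?_⟩
    · refine (min_le_left _ _).trans_lt ?_
      rw [div_lt_iff₀ (by positivity)]; linarith
    · calc C * min (1 / (2 * C)) (η₀ / T) ≤ C * (1 / (2 * C)) :=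
            mul_le_mul_of_nonneg_left (min_le_left _ _) hC0.le
        _ = 1 / 2 := by field_simp
        _ < 2 := by norm_num
    · calc T * min (1 / (2 * C)) (η₀ / T) ≤ T * (η₀ / T) :=
            mul_le_mul_of_nonneg_left (min_le_right _ _) (by positivity)
        _ = η₀ := by field_simp
  obtain ⟨n, s, hsA, hnet⟩ := hNET c R P Φ Hf C hA i A (fun t ht => ht.1) η hη
  have hci2 : c i ∈ ball (c i) 2 := mem_ball_self (by norm_num)
  have hci4 : c i ∈ ball (c i) 4 := mem_ball_self (by norm_num)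
  have hciB : c i ∈ Bd c 2 := mem_iUnion.2 ⟨i, hci2⟩
  have hciR : c i ∈ Bd c R := by
    refine mem_iUnion.2 ⟨i, mem_ball_self ?_⟩
    have := hA.Rge
    linarith
  -- the inverses
  have hinv : ∀ κ : Fin n, ∃ (j : Fin N) (rk : TriK b k), (s κ).g (c i) ∈ ball (c j) 1 ∧
      BigK c P j rk ∧ rk.g ((s κ).g (c i)) = c i ∧
      ∀ z ∈ ball (c i) (1 / C), rk.g ((s κ).g z) = z ∧ rk.A ((s κ).g z) * (s κ).A z = 1 := by
    intro κ
    obtain ⟨hbig, hy⟩ := hsA κ
    obtain ⟨j, hj⟩ := mem_iUnion.1 hy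
    obtain ⟨s', U', U'', hs', hyU', hU''o, hciU'', hU''4, hmaps, heq⟩ :=
      hA.inv _ _ hbig.1 (c i) hci4
    have he := heq (c i) hciU''
    have hs'y : s'.g ((s κ).g (c i)) = c i := he.1
    obtain ⟨rk, U3, hrk, hU3o, hyU3, hU3U', hreq⟩ := hA.ext j ((s κ).g (c i))
      (ball_subset_ball (by norm_num) hj) U' s' hs' hyU' (by rw [hs'y]; exact hciB)
    have hrky : rk.g ((s κ).g (c i)) = c i := by rw [(hreq _ hyU3).1, hs'y]
    have hrkBig : BigK c P j rk := ⟨hrk, (s κ).g (c i), ball_subset_ball (by norm_num) hj, by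
      rw [hrky]; exact hciB⟩
    refine ⟨j, rk, hj, hrkBig, hrky, ?_⟩
    -- near c i
    obtain ⟨-, -, ⟨hgs, has, -⟩, -⟩ := hA.holo _ _ hbig.1
    obtain ⟨-, -, ⟨hgr, har, -⟩, -⟩ := hA.holo _ _ hrk
    have hmap : MapsTo (s κ).g (ball (c i) (1 / C)) (ball (c j) 4) := by
      intro z hz
      have hz4 : z ∈ ball (c i) 4 := ball_subset_ball (by rw [div_le_iff₀ hC0]; linarith) hz
      have h1 := hA.lip i _ hbig z hz4 (c i) hci4
      rw [mem_ball, dist_eq_norm] at hz hj ⊢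
      have h2 : C * ‖z - c i‖ < 1 := by
        have := mul_lt_mul_of_pos_left hz hC0
        rwa [mul_one_div_cancel hC0.ne'] at this
      calc ‖(s κ).g z - c j‖ = ‖((s κ).g z - (s κ).g (c i)) + ((s κ).g (c i) - c j)‖ := by
            congr 1; abel
        _ ≤ ‖(s κ).g z - (s κ).g (c i)‖ + ‖(s κ).g (c i) - c j‖ := norm_add_le _ _
        _ < 4 := by linarith
    have hsub4 : ball (c i) (1 / C) ⊆ ball (c i) 4 :=
      ball_subset_ball (by rw [div_le_iff₀ hC0]; linarith)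
    have hcont : ContinuousAt (s κ).g (c i) :=
      (hgs.differentiableAt (isOpen_ball.mem_nhds hci4)).continuousAt
    have hev : ∀ᶠ z in 𝓝 (c i), rk.g ((s κ).g z) = z ∧ rk.A ((s κ).g z) * (s κ).A z = 1 := by
      filter_upwards [hU''o.mem_nhds hciU'', hcont.preimage_mem_nhds (hU3o.mem_nhds hyU3)]
        with z hz1 hz2
      obtain ⟨e1, e2, -⟩ := heq z hz1
      obtain ⟨e3, e4, -⟩ := hreq _ hz2
      simp only [TriK.comp, TriK.one, id] at e1 e2
      rw [e3, e4]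
      exact ⟨e1, e2⟩
    have hd1 : DifferentiableOn ℂ (fun z => rk.g ((s κ).g z) - z) (ball (c i) (1 / C)) :=
      (hgr.comp (hgs.mono hsub4) hmap).sub differentiableOn_id
    have hd2 : ∀ p q, DifferentiableOn ℂ (fun z => (rk.A ((s κ).g z) * (s κ).A z) p q -
        (1 : Matrix (Fin k) (Fin k) ℂ) p q) (ball (c i) (1 / C)) := by
      intro p q
      simp only [Matrix.mul_apply]
      refine (DifferentiableOn.fun_sum fun m _ => ?_).sub (differentiableOn_const _)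
      exact ((har p m).comp (hgs.mono hsub4) hmap).mul ((has m q).mono hsub4)
    intro z hz
    have i1 := idB hd1 (hev.mono fun z hz => by rw [hz.1, sub_self]) z hz
    have i2 : ∀ p q, (rk.A ((s κ).g z) * (s κ).A z) p q -
        (1 : Matrix (Fin k) (Fin k) ℂ) p q = 0 := fun p q =>
      idB (hd2 p q) (hev.mono fun z hz => by rw [hz.2, sub_self]) z hz
    exact ⟨sub_eq_zero.1 i1, by ext p q; exact sub_eq_zero.1 (i2 p q)⟩
  choose j rk hj hrk hrky hrel using hinv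
  refine ⟨C * (C + ∑ κ, C * (1 + ‖(rk κ).β (c (j κ))‖)), ?_⟩
  intro w
  -- the element s_w
  obtain ⟨U, t', ht', hciU, hgB, hlt⟩ := hA.coc (c i) hciR (-w)
  have hBd12 : Bd c 1 ⊆ Bd c 2 := iUnion_mono fun _ => ball_subset_ball (by norm_num)
  obtain ⟨sw, U1, hsw, hU1o, hciU1, hU1U, hsweq⟩ := hA.ext i (c i) hci2 U t' ht' hciU (hBd12 hgB)
  obtain ⟨q1, q2, q3⟩ := hsweq _ hciU1
  have hswB : sw.g (c i) ∈ Bd c 1 := by rw [q1]; exact hgB
  have hswBig : BigK c P i sw := ⟨hsw, c i, hci2, hBd12 hswB⟩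
  have hswlt : ‖sw.A (c i) *ᵥ (-w) + sw.β (c i)‖ < 1 := by rw [q2, q3]; exact hlt
  obtain ⟨κ, hκ⟩ := hnet sw ⟨hswBig, hswB⟩
  have hsk := (hsA κ).1
  have hci3 : c i ∈ ball (c i) 3 := mem_ball_self (by norm_num)
  have hyk := hj κ
  have hsub4 : ball (c i) (1 / C) ⊆ ball (c i) 4 :=
    ball_subset_ball (by rw [div_le_iff₀ hC0]; linarith)
  have hsub3 : ball (c i) (1 / C) ⊆ ball (c i) 3 :=
    ball_subset_ball (by rw [div_le_iff₀ hC0]; linarith)
  obtain ⟨-, -, ⟨hgw, haw, hbw⟩, -⟩ := hA.holo _ _ hsw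
  obtain ⟨-, -, ⟨hgr, har, hbr⟩, -⟩ := hA.holo _ _ (hrk κ).1
  -- images in the ball of radius 3 about c (j κ)
  have himg : ∀ z ∈ ball (c i) (1 / C), (s κ).g z ∈ ball (c (j κ)) 2 ∧
      sw.g z ∈ ball (c (j κ)) 3 := by
    intro z hz
    have hz4 := hsub4 hz
    have h1 := hA.lip i _ hsk z hz4 (c i) hci4
    have h3 := (hκ z (hsub3 hz)).1
    rw [mem_ball, dist_eq_norm] at hz hyk
    have h2 : C * ‖z - c i‖ < 1 := by
      have := mul_lt_mul_of_pos_left hz hC0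
      rwa [mul_one_div_cancel hC0.ne'] at this
    have h4 : ‖(s κ).g z - c (j κ)‖ < 2 := by
      calc ‖(s κ).g z - c (j κ)‖ = ‖((s κ).g z - (s κ).g (c i)) + ((s κ).g (c i) - c (j κ))‖ := by
            congr 1; abel
        _ ≤ ‖(s κ).g z - (s κ).g (c i)‖ + ‖(s κ).g (c i) - c (j κ)‖ := norm_add_le _ _
        _ < 2 := by linarith
    refine ⟨by rw [mem_ball, dist_eq_norm]; exact h4, ?_⟩
    rw [mem_ball, dist_eq_norm]
    calc ‖sw.g z - c (j κ)‖ = ‖(sw.g z - (s κ).g z) + ((s κ).g z - c (j κ))‖ := by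
          congr 1; abel
      _ ≤ ‖sw.g z - (s κ).g z‖ + ‖(s κ).g z - c (j κ)‖ := norm_add_le _ _
      _ < 3 := by linarith
  have hciC : c i ∈ ball (c i) (1 / C) := mem_ball_self (by positivity)
  have h34 : ball (c (j κ)) 3 ⊆ ball (c (j κ)) 4 := ball_subset_ball (by norm_num)
  have h24 : ball (c (j κ)) 2 ⊆ ball (c (j κ)) 4 := ball_subset_ball (by norm_num)
  have hmapw : MapsTo sw.g (ball (c i) (1 / C)) (ball (c (j κ)) 4) :=
    fun z hz => h34 (himg z hz).2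
  have hPcomp : P (ball (c i) (1 / C)) ((rk κ).comp sw) :=
    hA.comp _ _ _ _ _ (hrk κ).1 hsw isOpen_ball hsub4 hmapw
  -- the displacement of the composition
  have hdispl : ∀ z ∈ ball (c i) (1 / C), ‖(rk κ).g (sw.g z) - z‖ ≤ C * η := by
    intro z hz
    have h1 := hA.lip (j κ) _ (hrk κ) (sw.g z) (h34 (himg z hz).2) ((s κ).g z)
      (h24 (himg z hz).1)
    rw [(hrel κ z hz).1] at h1
    exact h1.trans (mul_le_mul_of_nonneg_left (hκ z (hsub3 hz)).1 hC0.le)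
  have hciimg : ((rk κ).comp sw).g (c i) ∈ Bd c 2 := by
    refine mem_iUnion.2 ⟨i, ?_⟩
    rw [mem_ball, dist_eq_norm]
    exact (hdispl _ hciC).trans_lt hη2
  obtain ⟨t, U2, ht, hU2o, hciU2, hU2U, hteq⟩ := hA.ext i (c i) hci2 _ _ hPcomp hciC hciimg
  have htBig : BigK c P i t := ⟨ht, c i, hci2, by rw [(hteq _ hciU2).1]; exact hciimg⟩
  obtain ⟨-, -, ⟨hgt, hat, -⟩, hnt⟩ := hA.holo _ _ ht
  -- equality on the ball of radius 1 / C
  have hd1 : DifferentiableOn ℂ (fun z => t.g z - (rk κ).g (sw.g z)) (ball (c i) (1 / C)) :=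
    (hgt.mono hsub4).sub (hgr.comp (hgw.mono hsub4) hmapw)
  have hd2 : ∀ p q, DifferentiableOn ℂ (fun z => t.A z p q -
      ((rk κ).A (sw.g z) * sw.A z) p q) (ball (c i) (1 / C)) := by
    intro p q
    simp only [Matrix.mul_apply]
    refine ((hat p q).mono hsub4).sub (DifferentiableOn.fun_sum fun m _ => ?_)
    exact ((har p m).comp (hgw.mono hsub4) hmapw).mul ((haw m q).mono hsub4)
  have heqg : ∀ z ∈ ball (c i) (1 / C), t.g z = (rk κ).g (sw.g z) := fun z hz =>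
    sub_eq_zero.1 (idB hd1 (by
      filter_upwards [hU2o.mem_nhds hciU2] with z hz
      rw [(hteq z hz).1]; exact sub_self _) z hz)
  have heqa : ∀ z ∈ ball (c i) (1 / C), t.A z = (rk κ).A (sw.g z) * sw.A z := fun z hz => by
    ext p q
    exact sub_eq_zero.1 (idB (hd2 p q) (by
      filter_upwards [hU2o.mem_nhds hciU2] with z hz
      rw [(hteq z hz).2.1]; exact sub_self _) z hz)
  -- Lipschitz bound for the matrix of the inverse
  have hLa : ∀ x ∈ ball (c (j κ)) 3, ∀ y ∈ ball (c (j κ)) 3,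
      MB ((rk κ).A x - (rk κ).A y) (k * (C * ‖x - y‖)) := by
    intro x hx y hy
    refine MB.of_entry fun p q => ?_
    have hc := cauchyB (ρ := 3) (ρ' := 4) (by norm_num) (har p q)
      (fun z hz => (hA.abd (j κ) _ (hrk κ) z hz).1.entry p q)
    exact lipB (ρ := 3) (ρ' := 4) (L := C) (by norm_num) (har p q)
      (fun z hz => (hc z hz).trans (le_of_eq (by norm_num))) x hx y hy
  have hnear : ∀ z ∈ ball (c i) (1 / C), ‖t.g z - z‖ ≤ η₀ ∧ MB (t.A z - 1) η₀ := by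
    intro z hz
    have hCη : C * η ≤ η₀ := (mul_le_mul_of_nonneg_right hCT hη.le).trans hη3
    refine ⟨?_, ?_⟩
    · rw [heqg z hz]; exact (hdispl z hz).trans hCη
    · rw [heqa z hz, ← (hrel κ z hz).2]
      have hz3 := hκ z (hsub3 hz)
      have e1 : (rk κ).A (sw.g z) * sw.A z - (rk κ).A ((s κ).g z) * (s κ).A z =
          ((rk κ).A (sw.g z) - (rk κ).A ((s κ).g z)) * sw.A z +
          (rk κ).A ((s κ).g z) * (sw.A z - (s κ).A z) := by
        rw [Matrix.sub_mul, Matrix.mul_sub]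
        abel
      rw [e1]
      have e2 := hLa _ (himg z hz).2 _ (ball_subset_ball (by norm_num) (himg z hz).1)
      have e3 := (hA.abd i _ hswBig z (hsub4 hz)).1
      have e4 := (hA.abd (j κ) _ (hrk κ) _ (h24 (himg z hz).1)).1
      have e5 : MB ((rk κ).A (sw.g z) - (rk κ).A ((s κ).g z)) (k * (C * η)) :=
        e2.mono (mul_le_mul_of_nonneg_left (mul_le_mul_of_nonneg_left hz3.1 hC0.le) hk0)
      refine ((e5.mul (by positivity) e3).add (e4.mul hC0.le hz3.2)).mono ?_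
      refine le_trans ?_ hη3
      rw [hT]
      have e6 : C * η ≤ C ^ 2 * η := by
        have : C ≤ C ^ 2 := by nlinarith
        exact mul_le_mul_of_nonneg_right this hη.le
      nlinarith
  refine ⟨t, ⟨htBig, hncv t htBig hnear⟩, ?_⟩
  -- the bound for q
  obtain ⟨p1, p2, p3⟩ := hteq _ hciU2
  have hta0 : (t.A (c i)).det ≠ 0 := (hnt _ hci4).2
  have hab := hA.abd i _ htBig _ hci4
  have hval : t.β (c i) - t.A (c i) *ᵥ w =
      (rk κ).A (sw.g (c i)) *ᵥ (sw.A (c i) *ᵥ (-w) + sw.β (c i)) + (rk κ).β (sw.g (c i)) := by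
    rw [p2, p3]
    simp only [TriK.comp]
    rw [Matrix.mulVec_add, Matrix.mulVec_mulVec, Matrix.mulVec_neg]
    abel
  have hswy := (himg _ hciC).2
  have hb1 : ‖(rk κ).β (sw.g (c i))‖ ≤ ∑ κ, C * (1 + ‖(rk κ).β (c (j κ))‖) := by
    refine (hA.bgr (j κ) _ (hrk κ) _ (h34 hswy) (c (j κ)) (mem_ball_self (by norm_num))).trans ?_
    exact Finset.single_le_sum (f := fun κ => C * (1 + ‖(rk κ).β (c (j κ))‖))
      (fun κ _ => by positivity) (Finset.mem_univ κ)
  have hb2 : ‖t.β (c i) - t.A (c i) *ᵥ w‖ ≤ C + ∑ κ, C * (1 + ‖(rk κ).β (c (j κ))‖) := by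
    rw [hval]
    refine (norm_add_le _ _).trans (add_le_add ?_ hb1)
    refine ((hA.abd (j κ) _ (hrk κ) _ (h34 hswy)).1 _).trans ?_
    calc _ ≤ C * 1 := mul_le_mul_of_nonneg_left hswlt.le hC0.le
      _ = C := mul_one C
  have hq : t.q (c i) - w = (t.A (c i))⁻¹ *ᵥ (t.β (c i) - t.A (c i) *ᵥ w) := by
    rw [TriK.q, Matrix.mulVec_sub, Matrix.mulVec_mulVec,
      Matrix.nonsing_inv_mul _ (isUnit_iff_ne_zero.2 hta0), Matrix.one_mulVec]
  rw [hq]
  exact (hab.2 _).trans (mul_le_mul_of_nonneg_left hb2 hC0.le)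

end Pool.Agent.Helper93.RK
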