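import Pool.Agent.Helper36.RK.GoalsP
import Pool.Agent.Helper47.SP.GIND

/-! # GINS: generic independence of symmetric matrices -/

open Complex Metric Set Filter Topology MeasureTheory Matrix
open scoped ContDiff ComplexConjugate ComplexOrder Manifold

namespace Pool.Agent.Helper93.RK

open Pool.Agent.Helper95.Lin Pool.Agent.Helper10.SP Pool.Agent.Helper95.RK
open Pool.Agent.Helper36.RK

/-! ## Algebra of `hs` -/

theorem cj_sum {k m : ℕ} (x : Fin m → ℂ) (s : Fin m → Matrix (Fin k) (Fin k) ℂ) :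
    cj (∑ i, x i • s i) = ∑ i, conj (x i) • cj (s i) := by
  ext p q
  simp only [cj, Matrix.map_apply, Matrix.sum_apply, Matrix.smul_apply, smul_eq_mul, map_sum,
    map_mul]

theorem hs_sum_left {k m : ℕ} (H t : Matrix (Fin k) (Fin k) ℂ) (x : Fin m → ℂ)
    (s : Fin m → Matrix (Fin k) (Fin k) ℂ) :
    hs H (∑ i, x i • s i) t = ∑ i, x i * hs H (s i) t := by
  unfold hs
  rw [Matrix.sum_mul, Matrix.sum_mul, Matrix.sum_mul, Matrix.trace_sum]
  refine Finset.sum_congr rfl fun i _ => ?_
  rw [Matrix.smul_mul, Matrix.smul_mul, Matrix.smul_mul, Matrix.trace_smul, smul_eq_mul]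

theorem hs_sum_right {k m : ℕ} (H t : Matrix (Fin k) (Fin k) ℂ) (x : Fin m → ℂ)
    (s : Fin m → Matrix (Fin k) (Fin k) ℂ) :
    hs H t (∑ i, x i • s i) = ∑ i, conj (x i) * hs H t (s i) := by
  unfold hs
  rw [cj_sum, Matrix.mul_sum, Matrix.sum_mul, Matrix.trace_sum]
  refine Finset.sum_congr rfl fun i _ => ?_
  rw [Matrix.mul_smul, Matrix.smul_mul, Matrix.trace_smul, smul_eq_mul]

theorem hs_smul_left {k : ℕ} (H s t : Matrix (Fin k) (Fin k) ℂ) (x : ℂ) :
    hs H (x • s) t = x * hs H s t := by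
  unfold hs
  rw [Matrix.smul_mul, Matrix.smul_mul, Matrix.smul_mul, Matrix.trace_smul, smul_eq_mul]

/-- Step (1): the imaginary part of a complex relation is a relation. -/
theorem rel_imS (hHSP : S_HSP) {k m : ℕ} (H : Matrix (Fin k) (Fin k) ℂ) (hH : H.PosDef)
    (s : Fin m → Matrix (Fin k) (Fin k) ℂ) (hsym : ∀ i, (s i).transpose = s i)
    (hr : ∀ i j, (hs H (s i) (s j)).im = 0)
    (lam : Fin m → ℂ) (h : ∑ i, lam i • s i = 0) : ∑ i, ((lam i).im : ℂ) • s i = 0 := by
  set P := ∑ i, ((lam i).re : ℂ) • s i with hP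
  set Q := ∑ i, ((lam i).im : ℂ) • s i with hQ
  have hPQ : P = (-I) • Q := by
    have : P + I • Q = 0 := by
      rw [hP, hQ, Finset.smul_sum, ← Finset.sum_add_distrib, ← h]
      refine Finset.sum_congr rfl fun i _ => ?_
      rw [smul_smul, ← add_smul]
      congr 1
      conv_rhs => rw [← re_add_im (lam i)]
      ring
    rw [neg_smul]
    exact eq_neg_of_add_eq_zero_left this
  have h1 : (hs H P Q).im = 0 := by
    rw [hP, hQ, hs_sum_left, im_sum]
    refine Finset.sum_eq_zero fun i _ => ?_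
    rw [im_ofReal_mul, hs_sum_right, im_sum]
    rw [Finset.sum_eq_zero fun l _ => ?_, mul_zero]
    rw [conj_ofReal, im_ofReal_mul, hr, mul_zero]
  have hsymQ : Q.transpose = Q := by
    rw [hQ, Matrix.transpose_sum]
    refine Finset.sum_congr rfl fun i _ => ?_
    rw [Matrix.transpose_smul, hsym]
  obtain ⟨h2, h3, h4⟩ := (hHSP H hH).2.1 Q hsymQ
  apply h4
  rw [hPQ, hs_smul_left] at h1
  apply Complex.ext
  · simp at h1
    simpa using h1
  · simpa using h2

/-! ## The identity theorem and the coefficients, for values in a normed space -/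

/-- The identity theorem on a ball of `ℂⁿ`, by restriction to complex lines. -/
theorem eq_zero_of_eventuallyE {n : ℕ} {E : Type*} [NormedAddCommGroup E] [NormedSpace ℂ E]
    [CompleteSpace E] {c : Cn n} {r : ℝ} {f : Cn n → E}
    (hf : DifferentiableOn ℂ f (ball c r)) {z₀ : Cn n} (hz₀ : z₀ ∈ ball c r)
    (h0 : ∀ᶠ z in 𝓝 z₀, f z = 0) : ∀ z ∈ ball c r, f z = 0 := by
  intro z hz
  set γ : ℂ → Cn n := fun t => z₀ + t • (z - z₀) with hγ
  have hγd : Differentiable ℂ γ := by
    intro t
    exact (differentiableAt_const _).add (differentiableAt_id.smul_const _)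
  set U : Set ℂ := γ ⁻¹' ball c r with hU
  have hUo : IsOpen U := isOpen_ball.preimage hγd.continuous
  have hUc : Convex ℝ U := by
    intro s hs t ht a b ha hb hab
    have : γ (a • s + b • t) = a • γ s + b • γ t := by
      ext i
      simp only [hγ, Pi.add_apply, Pi.smul_apply, Pi.sub_apply, smul_eq_mul, real_smul]
      have hb' : (a : ℂ) + b = 1 := by exact_mod_cast hab
      linear_combination (-(z₀ i)) * hb'
    change γ (a • s + b • t) ∈ ball c r
    rw [this]
    exact convex_ball c r hs ht ha hb hab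
  have hd : DifferentiableOn ℂ (fun t => f (γ t)) U :=
    hf.comp hγd.differentiableOn (fun t ht => ht)
  have ha : AnalyticOnNhd ℂ (fun t => f (γ t)) U := hd.analyticOnNhd hUo
  have h0U : (0 : ℂ) ∈ U := by
    change γ 0 ∈ ball c r
    simpa [hγ] using hz₀
  have h1U : (1 : ℂ) ∈ U := by
    change γ 1 ∈ ball c r
    simpa [hγ] using hz
  have hev : (fun t => f (γ t)) =ᶠ[𝓝 0] 0 := by
    have hc : Tendsto γ (𝓝 0) (𝓝 z₀) := by
      have := hγd.continuous.tendsto 0
      simpa [hγ] using this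
    exact hc.eventually h0
  have := ha.eqOn_zero_of_preconnected_of_eventuallyEq_zero hUc.isPreconnected h0U hev h1U
  simpa [hγ] using this

/-- A maximal independent subfamily at a point `z₀`: nearby the other elements are combinations with
holomorphic coefficients. -/
theorem coeffsE {n m : ℕ} {E : Type*} [NormedAddCommGroup E] [NormedSpace ℂ E]
    [FiniteDimensional ℂ E] {U : Set (Cn n)} (hU : IsOpen U) (V : Fin m → Cn n → E)
    (hV : ∀ k, DifferentiableOn ℂ (V k) U) (S : Finset (Fin m)) {z₀ : Cn n} (hz₀ : z₀ ∈ U)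
    (hS : LinearIndepOn ℂ (fun k => V k z₀) (S : Set (Fin m)))
    (hmax : ∀ z ∈ U, ∀ l ∉ S, ¬ LinearIndepOn ℂ (fun k => V k z)
      ((insert l S : Finset (Fin m)) : Set (Fin m)))
    {l : Fin m} (hl : l ∉ S) :
    ∃ r > 0, ball z₀ r ⊆ U ∧ ∃ d : Cn n → Fin m → ℂ,
      (∀ k, DifferentiableOn ℂ (fun z => d z k) (ball z₀ r)) ∧
      (∀ z ∈ ball z₀ r, LinearIndepOn ℂ (fun k => V k z) (S : Set (Fin m)) ∧
        (∀ k ∉ S, d z k = 0) ∧ ∑ k, d z k • V k z = V l z) := by
  classical
  let W : Cn n → ((S → ℂ) →L[ℂ] E) := fun z =>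
    ∑ k : S, (ContinuousLinearMap.proj (R := ℂ) (φ := fun _ : S => ℂ) k).smulRight (V k z)
  have hWa : ∀ z x, W z x = ∑ k : S, x k • V k z := by
    intro z x
    simp [W]
  have hWd : DifferentiableOn ℂ W U := by
    have h1 : ∀ k : S, DifferentiableOn ℂ (fun z =>
        (ContinuousLinearMap.proj (R := ℂ) (φ := fun _ : S => ℂ) k).smulRight (V k z)) U := by
      intro k
      exact ((ContinuousLinearMap.smulRightL ℂ (S → ℂ) E
        (ContinuousLinearMap.proj k)).differentiable.differentiableOn.comp (hV k)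
          (fun _ _ => mem_univ _))
    have : W = fun z => ∑ k : S,
      (ContinuousLinearMap.proj (R := ℂ) (φ := fun _ : S => ℂ) k).smulRight (V k z) := rfl
    rw [this]
    exact DifferentiableOn.fun_sum fun k _ => h1 k
  have hker : LinearMap.ker (W z₀ : (S → ℂ) →ₗ[ℂ] E) = ⊥ := by
    rw [LinearMap.ker_eq_bot']
    intro x hx
    have hx' : ∑ k : S, x k • V k z₀ = 0 := by rw [← hWa]; exact hx
    have h1 : LinearIndependent ℂ fun k : S => V k z₀ := hS
    funext k
    exact Fintype.linearIndependent_iff.1 h1 x hx' k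
  obtain ⟨L, hL⟩ := LinearMap.exists_leftInverse_of_injective _ hker
  let L' : E →L[ℂ] (S → ℂ) := LinearMap.toContinuousLinearMap L
  have hL' : ∀ x, L' (W z₀ x) = x := by
    intro x
    exact congrArg (fun F : (S → ℂ) →ₗ[ℂ] (S → ℂ) => F x) hL
  let T : Cn n → ((S → ℂ) →L[ℂ] (S → ℂ)) := fun z => L'.comp (W z)
  have hT0 : T z₀ = 1 := by
    ext x i
    simp [T, hL']
  have hTd : DifferentiableOn ℂ T U := by
    exact ((ContinuousLinearMap.compL ℂ (S → ℂ) E (S → ℂ) L').differentiable.differentiableOn.comp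
      hWd (fun _ _ => mem_univ _))
  have hTu : ∀ᶠ z in 𝓝 z₀, IsUnit (T z) := by
    have hc : ContinuousAt T z₀ := (hTd.differentiableAt (hU.mem_nhds hz₀)).continuousAt
    refine hc.eventually (Units.isOpen.mem_nhds ?_)
    rw [hT0]
    exact isUnit_one
  obtain ⟨r, hr0, hr⟩ := Metric.eventually_nhds_iff_ball.1 (hTu.and (hU.mem_nhds hz₀))
  have hrU : ball z₀ r ⊆ U := fun z hz => (hr z hz).2
  refine ⟨r, hr0, hrU, fun z k => if h : k ∈ S then
    (Ring.inverse (T z)) (L' (V l z)) ⟨k, h⟩ else 0, ?_, ?_⟩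
  · intro k
    by_cases hk : k ∈ S
    · simp only [hk, dif_pos]
      intro z hz
      refine DifferentiableAt.differentiableWithinAt ?_
      have hu := (hr z hz).1
      have h1 : DifferentiableAt ℂ (fun z => Ring.inverse (T z)) z :=
        (differentiableAt_inverse hu).comp z (hTd.differentiableAt (hU.mem_nhds (hrU hz)))
      have h2 : DifferentiableAt ℂ (fun z => L' (V l z)) z :=
        L'.differentiableAt.comp z ((hV l).differentiableAt (hU.mem_nhds (hrU hz)))
      have h3 := h1.clm_apply h2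
      exact (differentiableAt_pi.1 h3) ⟨k, hk⟩
    · simp only [hk, dif_neg, not_false_eq_true]
      exact differentiableOn_const _
  · intro z hz
    obtain ⟨hu, hzU⟩ := hr z hz
    have hind : LinearIndepOn ℂ (fun k => V k z) (S : Set (Fin m)) := by
      change LinearIndependent ℂ fun k : S => V k z
      rw [Fintype.linearIndependent_iff]
      intro x hx
      have h1 : T z x = 0 := by
        change L' (W z x) = 0
        rw [hWa, hx, map_zero]
      have h2 : Ring.inverse (T z) (T z x) = x := by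
        have := congrArg (fun F : (S → ℂ) →L[ℂ] (S → ℂ) => F x) (Ring.inverse_mul_cancel (T z) hu)
        simpa using this
      rw [h1, map_zero] at h2
      intro k
      rw [← h2]
      rfl
    refine ⟨hind, fun k hk => by simp [hk], ?_⟩
    have hsp : V l z ∈ Submodule.span ℂ ((fun k => V k z) '' (S : Set (Fin m))) := by
      by_contra hns
      refine hmax z hzU l hl ?_
      rw [Finset.coe_insert]
      exact (linearIndepOn_insert (by simpa using hl)).2 ⟨hind, hns⟩
    rw [Submodule.mem_span_image_finset_iff_exists_fun] at hsp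
    obtain ⟨x, hx⟩ := hsp
    have hx2 : ∑ k : S, x k • V k z = V l z := hx
    have h1 : L' (V l z) = T z x := by
      change _ = L' (W z _)
      rw [hWa, hx2]
    have h2 : Ring.inverse (T z) (L' (V l z)) = x := by
      rw [h1]
      have := congrArg (fun F : (S → ℂ) →L[ℂ] (S → ℂ) => F x)
        (Ring.inverse_mul_cancel (T z) hu)
      simpa using this
    have h4 : ∀ k : S, (if h : (k : Fin m) ∈ S then
        (Ring.inverse (T z)) (L' (V l z)) ⟨k, h⟩ else 0) = x k := by
      intro k
      rw [dif_pos k.2, h2]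
    rw [← hx2, ← Finset.sum_subset (Finset.subset_univ S), ← Finset.sum_coe_sort S]
    · refine Finset.sum_congr rfl fun k _ => ?_
      change (if h : (k : Fin m) ∈ S then
        (Ring.inverse (T z)) (L' (V l z)) ⟨k, h⟩ else 0) • V k z = x k • V k z
      rw [h4 k]
    · intro k _ hk
      simp [hk]

/-- a matrix as a vector -/
def vec {k : ℕ} (A : Matrix (Fin k) (Fin k) ℂ) : Fin k × Fin k → ℂ := fun p => A p.1 p.2

theorem vec_sum {k m : ℕ} (x : Fin m → ℂ) (s : Fin m → Matrix (Fin k) (Fin k) ℂ) :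
    vec (∑ i, x i • s i) = ∑ i, x i • vec (s i) := by
  funext p
  simp only [vec, Matrix.sum_apply, Matrix.smul_apply, smul_eq_mul, Finset.sum_apply,
    Pi.smul_apply]

theorem vec_inj {k : ℕ} {A B : Matrix (Fin k) (Fin k) ℂ} (h : vec A = vec B) : A = B := by
  ext p q
  exact congrFun h (p, q)

theorem vec_zero {k : ℕ} : vec (0 : Matrix (Fin k) (Fin k) ℂ) = 0 := rfl

theorem gins (hHSP : S_HSP) : S_GINS := by
  classical
  intro b k m x₀ r0 hr0 H s hH hhol hsym hreal0 hindep
  set B2 := ball x₀ r0 with hB2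
  set V : Fin m → Cn b → (Fin k × Fin k → ℂ) := fun i z => vec (s i z) with hV
  have hVd : ∀ i, DifferentiableOn ℂ (V i) B2 := fun i => differentiableOn_pi.2 fun p =>
    hhol i p.1 p.2
  have hrel : ∀ z ∈ B2, ∀ lam : Fin m → ℂ, ∑ i, lam i • V i z = 0 →
      ∑ i, ((lam i).im : ℂ) • V i z = 0 := by
    intro z hz lam h
    have h1 : ∑ i, lam i • s i z = 0 := by
      apply vec_inj
      rw [vec_sum, vec_zero]
      exact h
    have h2 := rel_imS hHSP (H z) (hH z hz) (fun i => s i z) (fun i => hsym i z hz)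
      (fun i j => hreal0 i j z hz) lam h1
    have h3 := congrArg vec h2
    rw [vec_sum, vec_zero] at h3
    exact h3
  -- maximal `S`
  let F : Finset (Finset (Fin m)) := Finset.univ.filter fun S =>
    ∃ z ∈ B2, LinearIndepOn ℂ (fun k => V k z) (S : Set (Fin m))
  have hne : F.Nonempty := by
    refine ⟨∅, Finset.mem_filter.2 ⟨Finset.mem_univ _, x₀, mem_ball_self hr0, ?_⟩⟩
    simp
  obtain ⟨S, hSF, hSmax⟩ := F.exists_max_image Finset.card hne
  obtain ⟨-, z₀, hz₀, hS⟩ := Finset.mem_filter.1 hSF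
  by_cases hall : S = Finset.univ
  · refine ⟨z₀, hz₀, ?_⟩
    rw [hall, Finset.coe_univ, linearIndepOn_univ_iff] at hS
    have h1 := ((hHSP (H z₀) (hH z₀ hz₀)).2.2.2 (fun i => s i z₀)
      (fun i => hsym i z₀ hz₀)).2.2
    rw [h1, Fintype.linearIndependent_iff]
    intro x hx
    refine Fintype.linearIndependent_iff.1 hS x ?_
    have h3 := congrArg vec hx
    rw [vec_sum, vec_zero] at h3
    exact h3
  exfalso
  obtain ⟨l, hl⟩ : ∃ l, l ∉ S := by
    by_contra hcon
    push Not at hcon
    exact hall (Finset.eq_univ_iff_forall.2 hcon)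
  have hmax : ∀ z ∈ B2, ∀ l ∉ S, ¬ LinearIndepOn ℂ (fun k => V k z)
      ((insert l S : Finset (Fin m)) : Set (Fin m)) := by
    intro z hz l hl hcon
    have := hSmax (insert l S) (Finset.mem_filter.2 ⟨Finset.mem_univ _, z, hz, hcon⟩)
    rw [Finset.card_insert_of_notMem hl] at this
    omega
  obtain ⟨r, hr0, hrU, d, hd, hdz⟩ := coeffsE (U := B2) isOpen_ball V hVd S hz₀ hS hmax hl
  -- the coefficients are real
  have hreal : ∀ z ∈ ball z₀ r, ∀ k, (d z k).im = 0 := by
    intro z hz k
    obtain ⟨hind, hd0, hsum⟩ := hdz z hz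
    have h1 : ∑ k, (d z k - if k = l then 1 else 0) • V k z = 0 := by
      simp only [sub_smul, Finset.sum_sub_distrib, hsum, ite_smul, one_smul, zero_smul,
        Finset.sum_ite_eq', Finset.mem_univ, if_true, sub_self]
    have h2 := hrel z (hrU hz) _ h1
    have h3 : ∑ k : S, ((d z k).im : ℂ) • V k z = 0 := by
      have e1 : ∑ k : S, ((d z k).im : ℂ) • V k z = ∑ k ∈ S, ((d z k).im : ℂ) • V k z :=
        Finset.sum_coe_sort S fun k => ((d z k).im : ℂ) • V k z
      rw [e1, ← h2, Finset.sum_subset (Finset.subset_univ S)]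
      · refine Finset.sum_congr rfl fun k _ => ?_
        congr 2
        by_cases hk : k = l
        · simp [hk]
        · simp [hk]
      · intro k _ hk
        rw [hd0 k hk]
        simp
    by_cases hk : k ∈ S
    · have h4 := Fintype.linearIndependent_iff.1
        (show LinearIndependent ℂ fun k : S => V k z from hind) _ h3 ⟨k, hk⟩
      exact_mod_cast h4
    · rw [hd0 k hk]; simp
  -- so constant
  have hz₀r : z₀ ∈ ball z₀ r := mem_ball_self hr0
  have hconst : ∀ z ∈ ball z₀ r, ∀ k, d z k = ((d z₀ k).re : ℂ) := by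
    intro z hz k
    have h1 : d z k = d z₀ k :=
      Pool.Agent.Helper47.SP.const_of_real (f := fun z => d z k) (hd k)
        (fun y hy => hreal y hy k) hz hz₀r
    rw [h1]
    apply Complex.ext
    · simp
    · simp [hreal z₀ hz₀r k]
  let x : Fin m → ℝ := fun k => (d z₀ k).re - if k = l then 1 else 0
  have hev : ∀ᶠ z in 𝓝 z₀, ∑ k, (x k : ℂ) • V k z = 0 := by
    filter_upwards [isOpen_ball.mem_nhds hz₀r] with z hz
    obtain ⟨-, -, hsum⟩ := hdz z hz
    have : ∀ k, (x k : ℂ) = d z k - if k = l then 1 else 0 := by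
      intro k
      rw [hconst z hz k]
      simp only [x]
      split_ifs <;> push_cast <;> ring
    simp only [this, sub_smul, Finset.sum_sub_distrib, hsum, ite_smul, one_smul, zero_smul,
        Finset.sum_ite_eq', Finset.mem_univ, if_true, sub_self]
  have hdiff : DifferentiableOn ℂ (fun z => ∑ k, (x k : ℂ) • V k z) B2 :=
    DifferentiableOn.fun_sum fun k _ => (hVd k).fun_const_smul _
  have hzero := eq_zero_of_eventuallyE hdiff hz₀ hev
  have hx := hindep x (by
    intro z hz
    apply vec_inj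
    rw [vec_sum, vec_zero]
    exact hzero z hz)
  have hxl : x l = 0 := by rw [hx]; rfl
  have hdl : d z₀ l = 0 := (hdz z₀ hz₀r).2.1 l hl
  simp only [x, hdl] at hxl
  norm_num at hxl

end Pool.Agent.Helper93.RK
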