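import Pool.Agent.Helper36.RK.GoalsQ
import Pool.Agent.Helper10.SP.WIRT
import Pool.Agent.Helper95.Lin.Basics

/-! # EKQ: the polarization is constant -/

open Complex Metric Set Filter Topology MeasureTheory Matrix
open scoped ContDiff ComplexConjugate ComplexOrder Manifold

namespace Pool.Agent.Helper93.RK

open Pool.Agent.Helper95.Lin Pool.Agent.Helper16.Abund Pool.Agent.Helper92.Orb Pool.Agent.Helper10.SP
  Pool.Agent.Helper95.RK Pool.Agent.Helper36.RK Pool.Agent.Helper10.SP.Wirt

variable {n : ℕ}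

/-- `cd` of a finite sum -/
theorem cd_fsum {m : ℕ} (l : Fin n) (f : Fin m → Cn n → ℂ) (x : Cn n)
    (hf : ∀ i, DifferentiableAt ℝ (f i) x) :
    cd l (fun y => ∑ i, f i y) x = ∑ i, cd l (f i) x := by
  unfold cd
  rw [fderiv_fun_sum fun i _ => hf i]
  simp only [_root_.sum_apply]
  rw [Finset.mul_sum, ← Finset.sum_sub_distrib]

/-- a smooth function with purely imaginary values and `cd l f = 0` for all `l` has vanishing
derivative -/
theorem fderiv_zero_of_cd {F : Cn n → ℂ} {W : Set (Cn n)} (hW : IsOpen W)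
    (hF : ContDiffOn ℝ ∞ F W) (hre : ∀ y ∈ W, (F y).re = 0) {x : Cn n} (hx : x ∈ W)
    (h : ∀ l, cd l F x = 0) : fderiv ℝ F x = 0 := by
  have hd : DifferentiableAt ℝ F x :=
    (hF.contDiffAt (hW.mem_nhds hx)).differentiableAt (by simp)
  have hr : ∀ v, (fderiv ℝ F x v).re = 0 := by
    intro v
    have h1 : HasFDerivAt (fun y => (F y).re) (reCLM.comp (fderiv ℝ F x)) x :=
      reCLM.hasFDerivAt.comp x hd.hasFDerivAt
    have h2 : HasFDerivAt (fun y => (F y).re) (0 : Cn n →L[ℝ] ℝ) x := by
      refine (hasFDerivAt_const (0 : ℝ) x).congr_of_eventuallyEq ?_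
      filter_upwards [hW.mem_nhds hx] with y hy
      exact hre y hy
    exact congrArg (fun L : Cn n →L[ℝ] ℝ => L v) (h1.unique h2)
  have h1 : ∀ l, fderiv ℝ F x (Pi.single l 1) = 0 ∧ fderiv ℝ F x (Pi.single l I) = 0 := by
    intro l
    have h2 := h l
    unfold cd at h2
    have h3 := congrArg Complex.re h2
    have h4 := congrArg Complex.im h2
    have h5 := hr (Pi.single l 1)
    have h6 := hr (Pi.single l I)
    simp only [Complex.sub_re, Complex.sub_im, Complex.mul_re, Complex.mul_im, Complex.I_re,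
      Complex.I_im, Complex.zero_re, Complex.zero_im, h5, h6] at h3 h4
    constructor
    · apply Complex.ext
      · exact h5
      · rw [Complex.zero_im]; linarith
    · apply Complex.ext
      · exact h6
      · rw [Complex.zero_im]; linarith
  ext v
  have h2 : v = ∑ l, ((v l).re • (Pi.single l (1 : ℂ) : Cn n) + (v l).im • (Pi.single l I : Cn n)) := by
    funext j
    rw [Finset.sum_apply, Finset.sum_eq_single j]
    · simp only [Pi.add_apply, Pi.smul_apply, Pi.single_eq_same, Complex.real_smul]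
      rw [mul_one]
      exact (Complex.re_add_im (v j)).symm
    · intro l _ hl
      simp only [Pi.add_apply, Pi.smul_apply, Pi.single_eq_of_ne hl.symm, smul_zero, add_zero]
    · intro hj
      exact absurd (Finset.mem_univ _) hj
  rw [h2, map_sum, _root_.zero_apply]
  refine Finset.sum_eq_zero fun l _ => ?_
  rw [map_add, map_smul, map_smul, (h1 l).1, (h1 l).2, smul_zero, smul_zero, add_zero]

theorem ekq (hCLQ : S_CLQ) (hDLQ : S_DLQ) : S_EKQ := by
  intro b k N c R P Φ Hf C H hA hK hF lam hP hLim i z hz j j'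
  set D : Set (Cn b) := Bd c 2 with hD
  have hDo : IsOpen D := isOpen_iUnion fun _ => isOpen_ball
  have hRge := hA.Rge
  have hCge := hA.Cge
  have hD3 : D ⊆ Bd c 3 := by
    intro y hy
    obtain ⟨l, hl⟩ := mem_iUnion.1 hy
    exact mem_iUnion.2 ⟨l, ball_subset_ball (by norm_num) hl⟩
  have hDR : D ⊆ Bd c R := by
    intro y hy
    obtain ⟨l, hl⟩ := mem_iUnion.1 hy
    exact mem_iUnion.2 ⟨l, ball_subset_ball (by linarith) hl⟩
  have hB : ball (c i) 2 ⊆ D := fun y hy => mem_iUnion.2 ⟨i, hy⟩
  have hlh : ∀ j p, DifferentiableOn ℂ (fun y => lam j y p) D := fun j p =>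
    (differentiableOn_pi.1 ((hP.holo j).mono hD3)) p
  have hls : ∀ j p, ContDiffOn ℝ ∞ (fun y => lam j y p) D := fun j p =>
    holo_contDiffOn_real hDo (hlh j p)
  have hHs : ∀ p l, ContDiffOn ℝ ∞ (fun y => Hf y p l) D := fun p l => (hA.smH p l).mono hDR
  have hus : ∀ j l, ContDiffOn ℝ ∞ (fun y => ∑ p, Hf y p l * lam j y p) D := fun j l =>
    ContDiffOn.sum fun p _ => (hHs p l).mul (hls j p)
  have hcs : ∀ j l, ContDiffOn ℝ ∞ (fun y => conj (lam j y l)) D := fun j l =>
    Complex.conjCLE.contDiff.comp_contDiffOn (hls j l)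
  -- the formula for `hL`
  have hLe : ∀ j j' y, hL Hf lam y j j' = ∑ l, (∑ p, Hf y p l * lam j y p) * conj (lam j' y l) := by
    intro j j' y
    unfold hL
    rw [Finset.sum_comm]
    refine Finset.sum_congr rfl fun l _ => ?_
    rw [Finset.sum_mul]
  have hLs : ∀ j j', ContDiffOn ℝ ∞ (fun y => hL Hf lam y j j') D := by
    intro j j'
    simp only [hLe]
    exact ContDiffOn.sum fun l _ => (hus j l).mul (hcs j' l)
  have hLherm : ∀ j j', ∀ y ∈ D, conj (hL Hf lam y j j') = hL Hf lam y j' j := by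
    intro j j' y hy
    unfold hL
    rw [map_sum, Finset.sum_comm]
    simp only [map_sum, map_mul, Complex.conj_conj]
    rw [Finset.sum_comm]
    rw [Finset.sum_comm]
    refine Finset.sum_congr rfl fun l _ => Finset.sum_congr rfl fun p _ => ?_
    have h1 : conj (Hf y l p) = Hf y p l := by
      have := (hA.posH y (hDR hy)).1.apply p l
      exact this
    rw [h1]
    ring
  -- the derivatives
  have hcd : ∀ j j' a, ∀ y ∈ D, cd a (fun y => hL Hf lam y j j') y =
      -2 * ∑ l, ∑ m, ccQ H y a m l * conj (lam j y m) * conj (lam j' y l) := by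
    intro j j' a y hy
    simp only [hLe]
    rw [cd_fsum a (fun l y => (∑ p, Hf y p l * lam j y p) * conj (lam j' y l)) y (fun l =>
      (((hus j l).mul (hcs j' l)).contDiffAt (hDo.mem_nhds hy)).differentiableAt (by simp))]
    rw [Finset.mul_sum]
    refine Finset.sum_congr rfl fun l _ => ?_
    have h1 := ((wirt D hDo _ _ (hus j l) (hcs j' l)).2.2.1 a y hy).1
    have h2 := ((wirt D hDo _ _ (hls j' l) (hls j' l)).2.2.2.1 a y hy).1
    have h3 := (wirt D hDo _ _ (hls j' l) (hls j' l)).2.2.2.2.2.2 (hlh j' l) a y hy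
    rw [h3, map_zero] at h2
    have h4 := hDLQ c R P Φ Hf C H hA hK hF lam hP hLim y hy j a l
    rw [h1, h2, h4, mul_zero, zero_add]
    rw [mul_comm, mul_assoc, Finset.sum_mul]
  have hsym : ∀ y ∈ D, ∀ a m l, ccQ H y a m l = ccQ H y a l m := by
    intro y hy a m l
    unfold ccQ
    have hx : ptK y (0 : Cn k) ∈ tubeK k (Bd c R) := by
      have hb : base (ptK y (0 : Cn k)) = y := by
        funext p
        simp only [base, ptK, Fin.append_left]
      show base (ptK y (0 : Cn k)) ∈ Bd c R
      rw [hb]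
      exact hDR hy
    rw [(hCLQ c R P Φ Hf C H hA hK hF (ptK y 0) hx a).2 m l]
  set F : Cn b → ℂ := fun y => hL Hf lam y j j' + (-1) * hL Hf lam y j' j with hFd
  have hFs : ContDiffOn ℝ ∞ F D := (hLs j j').add (contDiffOn_const.mul (hLs j' j))
  have hFre : ∀ y ∈ D, (F y).re = 0 := by
    intro y hy
    simp only [hFd]
    rw [← hLherm j j' y hy]
    simp
  have hFcd : ∀ y ∈ D, ∀ a, cd a F y = 0 := by
    intro y hy a
    have h1 := ((wirt D hDo _ _ (hLs j j') (contDiffOn_const.mul (hLs j' j) :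
      ContDiffOn ℝ ∞ (fun y => (-1 : ℂ) * hL Hf lam y j' j) D)).2.1 a y hy).1
    have h2 := ((wirt D hDo (fun _ => (-1 : ℂ)) _ contDiffOn_const (hLs j' j)).2.2.1 a y hy).1
    have h3 : cd a (fun _ => (-1 : ℂ)) y = 0 := by
      unfold cd
      simp
    simp only [hFd]
    rw [h1, h2, h3, mul_zero, add_zero, hcd j j' a y hy, hcd j' j a y hy]
    have h4 : ∑ l, ∑ m, ccQ H y a m l * conj (lam j' y m) * conj (lam j y l) =
        ∑ l, ∑ m, ccQ H y a m l * conj (lam j y m) * conj (lam j' y l) := by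
      rw [Finset.sum_comm]
      refine Finset.sum_congr rfl fun l _ => Finset.sum_congr rfl fun m _ => ?_
      rw [hsym y hy a l m]
      ring
    rw [h4]
    ring
  have hconst : F z = F (c i) := by
    refine (convex_ball (c i) 2).is_const_of_fderivWithin_eq_zero (𝕜 := ℝ) (f := F)
      ((hFs.mono hB).differentiableOn (by simp)) ?_ hz (mem_ball_self (by norm_num))
    intro y hy
    rw [fderivWithin_of_isOpen isOpen_ball hy]
    exact fderiv_zero_of_cd hDo hFs hFre (hB hy) (hFcd y (hB hy))
  have hval : ∀ y ∈ D, (F y).im = 2 * (hL Hf lam y j j').im := by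
    intro y hy
    simp only [hFd]
    rw [← hLherm j j' y hy]
    simp
    ring
  have h1 := congrArg Complex.im hconst
  rw [hval z (hB hz), hval (c i) (hB (mem_ball_self (by norm_num)))] at h1
  linarith

end Pool.Agent.Helper93.RK
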